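import Mathlib

/-!
# RT, Base: families of real multilinear forms

`Ten N a` is the space of the families of multilinear forms on `ℝᴺ` (given by their coefficients),
the form with index `i` has degree `a i`. A matrix `z` acts from the right: `act z u` is the family of
the forms `u_i (z y₁, …, z y_{a i})`.
-/

namespace Pool.Agent.Lib.MP_666dc0_nt.RT

variable {N : ℕ} {I : Type} [Fintype I] {a : I → ℕ}

/-- Families of real multilinear forms on `ℝᴺ`, given by their coefficients. -/
abbrev Ten (N : ℕ) {I : Type} (a : I → ℕ) : Type := ∀ i : I, (Fin (a i) → Fin N) → ℝ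

/-- The forms `u_i (z y₁, …, z y_{a i})`. -/
def act (z : Matrix (Fin N) (Fin N) ℝ) (u : Ten N a) : Ten N a :=
  fun i J => ∑ J' : Fin (a i) → Fin N, (∏ t, z (J' t) (J t)) * u i J'

/-- The sum of the squares of the coefficients. -/
def nsq (u : Ten N a) : ℝ := ∑ i, ∑ J, (u i J) ^ 2

/-- `u` has minimal length in its orbit under `SL_N(ℝ)`. -/
def IsMin (u : Ten N a) : Prop :=
  ∀ z : Matrix (Fin N) (Fin N) ℝ, z.det = 1 → nsq u ≤ nsq (act z u)

/-- The orbit of `u` under `SL_N(ℝ)` is closed, and the determinants are controlled (this holds if one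
of the forms is a non-degenerate bilinear form). -/
structure IsRed (u : Ten N a) : Prop where
  closed : IsClosed {t : Ten N a | ∃ z : Matrix (Fin N) (Fin N) ℝ, z.det = 1 ∧ t = act z u}
  det_one : ∀ z : Matrix (Fin N) (Fin N) ℝ, act z u = u → |z.det| = 1
  bdd : ∀ M : ℝ, ∃ M' : ℝ, ∀ z : Matrix (Fin N) (Fin N) ℝ, nsq (act z u) ≤ M → |z.det| ≤ M'

omit [Fintype I] in
theorem act_one (u : Ten N a) : act 1 u = u := by
  funext i J
  unfold act
  rw [Finset.sum_eq_single J]
  · simp
  · intro J' _ hJ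
    obtain ⟨s, hs⟩ : ∃ s, J' s ≠ J s := by
      by_contra h
      push Not at h
      exact hJ (funext h)
    have h0 : (1 : Matrix (Fin N) (Fin N) ℝ) (J' s) (J s) = 0 := Matrix.one_apply_ne hs
    have h1 : ∏ t, (1 : Matrix (Fin N) (Fin N) ℝ) (J' t) (J t) = 0 :=
      Finset.prod_eq_zero (Finset.mem_univ s) h0
    rw [h1, zero_mul]
  · intro h
    exact absurd (Finset.mem_univ _) h

omit [Fintype I] in
theorem act_mul (z z' : Matrix (Fin N) (Fin N) ℝ) (u : Ten N a) :
    act (z * z') u = act z' (act z u) := by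
  funext i J
  unfold act
  simp only [Matrix.mul_apply, Finset.mul_sum]
  rw [Finset.sum_comm]
  refine Finset.sum_congr rfl fun J' _ => ?_
  rw [Finset.prod_univ_sum, Finset.sum_mul]
  simp only [Fintype.piFinset_univ]
  refine Finset.sum_congr rfl fun L _ => ?_
  rw [Finset.prod_mul_distrib]
  ring

omit [Fintype I] in
theorem act_diag (x : Fin N → ℝ) (u : Ten N a) (i : I) (J : Fin (a i) → Fin N) :
    act (Matrix.diagonal x) u i J = (∏ t, x (J t)) * u i J := by
  unfold act
  rw [Finset.sum_eq_single J]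
  · simp
  · intro J' _ hJ
    obtain ⟨s, hs⟩ : ∃ s, J' s ≠ J s := by
      by_contra h
      push Not at h
      exact hJ (funext h)
    have h1 : ∏ t, (Matrix.diagonal x) (J' t) (J t) = 0 :=
      Finset.prod_eq_zero (Finset.mem_univ s) (Matrix.diagonal_apply_ne _ hs)
    rw [h1, zero_mul]
  · intro h
    exact absurd (Finset.mem_univ _) h

omit [Fintype I] in
theorem continuous_act : Continuous fun p : Matrix (Fin N) (Fin N) ℝ × Ten N a =>
    act p.1 p.2 := by
  refine continuous_pi fun i => continuous_pi fun J => ?_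
  unfold act
  refine continuous_finsetSum _ fun J' _ => ?_
  refine Continuous.mul (continuous_finsetProd _ fun t _ => ?_) ?_
  · exact continuous_fst.matrix_elem _ _
  · exact (continuous_apply J').comp ((continuous_apply i).comp continuous_snd)

theorem continuous_nsq : Continuous (nsq : Ten N a → ℝ) := by
  unfold nsq
  refine continuous_finsetSum _ fun i _ => continuous_finsetSum _ fun J _ => ?_
  exact ((continuous_apply J).comp (continuous_apply i)).pow 2

theorem nsq_nonneg (u : Ten N a) : 0 ≤ nsq u :=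
  Finset.sum_nonneg fun _ _ => Finset.sum_nonneg fun _ _ => sq_nonneg _

theorem sq_le_nsq (u : Ten N a) (i : I) (J : Fin (a i) → Fin N) : (u i J) ^ 2 ≤ nsq u :=
  (Finset.single_le_sum (f := fun J => (u i J) ^ 2) (fun _ _ => sq_nonneg _)
    (Finset.mem_univ J)).trans
    (Finset.single_le_sum (f := fun i => ∑ J, (u i J) ^ 2)
      (fun _ _ => Finset.sum_nonneg fun _ _ => sq_nonneg _) (Finset.mem_univ i))

/-- A bound for the coefficients gives a bound for `nsq`. -/
theorem exists_nsq_le (N : ℕ) (a : I → ℕ) (M : ℝ) : ∃ M' : ℝ, ∀ u : Ten N a,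
    (∀ i J, |u i J| ≤ M) → nsq u ≤ M' := by
  refine ⟨∑ i : I, ∑ _J : Fin (a i) → Fin N, M ^ 2, fun u hu => ?_⟩
  refine Finset.sum_le_sum fun i _ => Finset.sum_le_sum fun J _ => ?_
  rw [← sq_abs]
  exact pow_le_pow_left₀ (abs_nonneg _) (hu i J) 2

theorem abs_le_of_nsq_le {u : Ten N a} {M : ℝ} (h : nsq u ≤ M) (i : I) (J : Fin (a i) → Fin N) :
    |u i J| ≤ M + 1 := by
  have h1 := (sq_le_nsq u i J).trans h
  rw [← sq_abs] at h1
  nlinarith [abs_nonneg (u i J), sq_nonneg (|u i J| - 1)]

/-- The coefficients of `act z u` are bounded if those of `z` and `u` are bounded. -/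
theorem exists_act_le (N : ℕ) (a : I → ℕ) (M : ℝ) : ∃ M' : ℝ,
    ∀ (z : Matrix (Fin N) (Fin N) ℝ) (u : Ten N a),
    (∀ k l, |z k l| ≤ M) → (∀ i J, |u i J| ≤ M) → ∀ i J, |act z u i J| ≤ M' := by
  refine ⟨∑ i : I, ∑ _J' : Fin (a i) → Fin N, |M| ^ a i * |M|, fun z u hz hu i J => ?_⟩
  have h1 : |act z u i J| ≤ ∑ _J' : Fin (a i) → Fin N, |M| ^ a i * |M| := by
    refine (Finset.abs_sum_le_sum_abs _ _).trans (Finset.sum_le_sum fun J' _ => ?_)
    rw [abs_mul, Finset.abs_prod]
    refine mul_le_mul ?_ ((hu i J').trans (le_abs_self M)) (abs_nonneg _) (by positivity)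
    calc ∏ t, |z (J' t) (J t)| ≤ ∏ _t : Fin (a i), |M| :=
          Finset.prod_le_prod (fun _ _ => abs_nonneg _) fun t _ => (hz _ _).trans (le_abs_self M)
      _ = |M| ^ a i := by simp
  refine h1.trans ?_
  exact Finset.single_le_sum (f := fun i => ∑ _J' : Fin (a i) → Fin N, |M| ^ a i * |M|)
    (fun i _ => Finset.sum_nonneg fun _ _ => by positivity) (Finset.mem_univ i)

/-- `nsq` is invariant under orthogonal matrices.
Proof: `∑_J (∑_{J'} ∏_t O(J'_t, J_t) u(J'))² = ∑_{J', J''} u(J') u(J'') ∏_t ∑_j O(J'_t, j) O(J''_t, j)`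
and the inner sums are the entries of `O Oᵀ = 1`. -/
theorem nsq_orth {O : Matrix (Fin N) (Fin N) ℝ} (hO : O * O.transpose = 1) (u : Ten N a) :
    nsq (act O u) = nsq u := by
  have key : ∀ i (J' J'' : Fin (a i) → Fin N),
      ∑ J : Fin (a i) → Fin N, (∏ t, O (J' t) (J t)) * (∏ t, O (J'' t) (J t)) =
        if J' = J'' then 1 else 0 := by
    intro i J' J''
    have h1 : ∑ J : Fin (a i) → Fin N, (∏ t, O (J' t) (J t)) * (∏ t, O (J'' t) (J t)) =
        ∏ t, ∑ j, O (J' t) j * O (J'' t) j := by
      rw [Finset.prod_univ_sum, Fintype.piFinset_univ]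
      refine Finset.sum_congr rfl fun J _ => ?_
      rw [Finset.prod_mul_distrib]
    have h2 : ∀ t, ∑ j, O (J' t) j * O (J'' t) j = (1 : Matrix (Fin N) (Fin N) ℝ) (J' t) (J'' t) := by
      intro t
      rw [← hO, Matrix.mul_apply]
      rfl
    rw [h1]
    simp only [h2]
    split_ifs with h
    · subst h
      simp
    · obtain ⟨s, hs⟩ : ∃ s, J' s ≠ J'' s := by
        by_contra h'
        push Not at h'
        exact h (funext h')
      exact Finset.prod_eq_zero (Finset.mem_univ s) (Matrix.one_apply_ne hs)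
  unfold nsq
  refine Finset.sum_congr rfl fun i _ => ?_
  unfold act
  calc ∑ J : Fin (a i) → Fin N, (∑ J', (∏ t, O (J' t) (J t)) * u i J') ^ 2
      = ∑ J : Fin (a i) → Fin N, ∑ J', ∑ J'', (u i J' * u i J'') *
          ((∏ t, O (J' t) (J t)) * (∏ t, O (J'' t) (J t))) := by
        refine Finset.sum_congr rfl fun J _ => ?_
        rw [sq, Finset.sum_mul_sum]
        refine Finset.sum_congr rfl fun J' _ => Finset.sum_congr rfl fun J'' _ => ?_
        ring
    _ = ∑ J', ∑ J'', (u i J' * u i J'') * ∑ J : Fin (a i) → Fin N,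
          ((∏ t, O (J' t) (J t)) * (∏ t, O (J'' t) (J t))) := by
        rw [Finset.sum_comm]
        refine Finset.sum_congr rfl fun J' _ => ?_
        rw [Finset.sum_comm]
        refine Finset.sum_congr rfl fun J'' _ => ?_
        rw [Finset.mul_sum]
    _ = ∑ J', (u i J') ^ 2 := by
        refine Finset.sum_congr rfl fun J' _ => ?_
        simp only [key]
        rw [Finset.sum_eq_single J']
        · simp [sq]
        · intro J'' _ h
          rw [if_neg (Ne.symm h), mul_zero]
        · intro h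
          exact absurd (Finset.mem_univ _) h

end Pool.Agent.Lib.MP_666dc0_nt.RT
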