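import Pool.Agent.Lib.MP_666dc0_nt.RT.R2

/-!
# RT, R2b: existence of minimal vectors; properness
-/

open Matrix

namespace Pool.Agent.Lib.MP_666dc0_nt.RT

variable {N : ℕ} {I : Type} [Fintype I] {a : I → ℕ}

/-- The hypotheses do not depend on the point of the orbit. -/
theorem IsRed.act {u : Ten N a} (h : IsRed u) {z₀ : Matrix (Fin N) (Fin N) ℝ} (hz₀ : z₀.det = 1) :
    IsRed (RT.act z₀ u) := by
  have hu : IsUnit z₀.det := by rw [hz₀]; exact isUnit_one
  refine ⟨?_, fun z hz => ?_, fun M => ?_⟩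
  · convert h.closed using 1
    ext t
    constructor
    · rintro ⟨z, hz, rfl⟩
      exact ⟨z₀ * z, by rw [det_mul, hz₀, hz, one_mul], (act_mul _ _ _).symm⟩
    · rintro ⟨z, hz, rfl⟩
      refine ⟨z₀⁻¹ * z, ?_, ?_⟩
      · rw [det_mul, det_nonsing_inv, hz₀, hz, Ring.inverse_one, one_mul]
      · rw [← act_mul, ← mul_assoc, mul_nonsing_inv _ hu, one_mul]
  · have h1 : RT.act (z₀ * z * z₀⁻¹) u = u := by
      rw [act_mul, act_mul, hz, ← act_mul, mul_nonsing_inv _ hu, act_one]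
    have h2 := h.det_one _ h1
    rw [det_mul, det_mul, det_nonsing_inv, hz₀, Ring.inverse_one, one_mul, mul_one] at h2
    exact h2
  · obtain ⟨M', hM'⟩ := h.bdd M
    refine ⟨M', fun z hz => ?_⟩
    rw [← act_mul] at hz
    have h1 := hM' _ hz
    rw [det_mul, hz₀, one_mul] at h1
    exact h1

/-- A closed orbit contains a minimal vector. -/
theorem IsRed.exists_min {u : Ten N a} (h : IsRed u) :
    ∃ z₀ : Matrix (Fin N) (Fin N) ℝ, z₀.det = 1 ∧ IsMin (RT.act z₀ u) := by
  let K : Set (Ten N a) := {t | (∃ z : Matrix (Fin N) (Fin N) ℝ, z.det = 1 ∧ t = RT.act z u) ∧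
    nsq t ≤ nsq u}
  have hK : IsCompact K := by
    refine Metric.isCompact_of_isClosed_isBounded
      (h.closed.inter (isClosed_le continuous_nsq continuous_const)) ?_
    rw [isBounded_iff_forall_norm_le]
    refine ⟨|nsq u + 1|, fun t ht => ?_⟩
    refine (pi_norm_le_iff_of_nonneg (abs_nonneg _)).2 fun i =>
      (pi_norm_le_iff_of_nonneg (abs_nonneg _)).2 fun J => ?_
    exact (abs_le_of_nsq_le ht.2 i J).trans (le_abs_self _)
  have hne : K.Nonempty := ⟨u, ⟨1, Matrix.det_one, (act_one u).symm⟩, le_refl _⟩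
  obtain ⟨t, ht, hmin⟩ := hK.exists_isMinOn hne continuous_nsq.continuousOn
  obtain ⟨⟨z₀, hz₀, rfl⟩, ht2⟩ := ht
  refine ⟨z₀, hz₀, fun z hz => ?_⟩
  by_cases h1 : nsq (RT.act z (RT.act z₀ u)) ≤ nsq u
  · exact hmin ⟨⟨z₀ * z, by rw [det_mul, hz₀, hz, one_mul], (act_mul _ _ _).symm⟩, h1⟩
  · exact ht2.trans (not_le.1 h1).le

omit [Fintype I] in
theorem act_smul_one (r : ℝ) (u : Ten N a) (i : I) (J : Fin (a i) → Fin N) :
    RT.act (r • (1 : Matrix (Fin N) (Fin N) ℝ)) u i J = r ^ a i * u i J := by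
  have h1 : r • (1 : Matrix (Fin N) (Fin N) ℝ) = diagonal fun _ => r := by
    rw [smul_one_eq_diagonal]
  rw [h1, act_diag]
  simp

/-- Properness.
Proof: divide `z` by the `N`-th root of `|det z|` and by a sign, and apply `exists_cpt`. -/
theorem IsRed.proper {u : Ten N a} (h : IsRed u) {M : ℝ} (hM : 0 < M) : ∃ M' : ℝ,
    ∀ z : Matrix (Fin N) (Fin N) ℝ, M⁻¹ ≤ |z.det| → nsq (RT.act z u) ≤ M →
      ∃ g c : Matrix (Fin N) (Fin N) ℝ, RT.act g u = u ∧ c.det ≠ 0 ∧ z = g * c ∧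
        (∀ i j, |c i j| ≤ M') ∧ ∀ i j, |c⁻¹ i j| ≤ M' := by
  rcases Nat.eq_zero_or_pos N with rfl | hN
  · refine ⟨0, fun z _ _ => ⟨1, z, act_one u, ?_, (one_mul z).symm, fun i => i.elim0,
      fun i => i.elim0⟩⟩
    rw [det_fin_zero]
    exact one_ne_zero
  have hN0 : N ≠ 0 := hN.ne'
  obtain ⟨M₁, hM₁⟩ := h.bdd M
  obtain ⟨M₂, hM₂⟩ := exists_act_le N a (max (max 1 M) (M + 1))
  obtain ⟨M₃, hM₃⟩ := exists_nsq_le N a M₂
  obtain ⟨M₄, hM₄⟩ := h.exists_cpt M₃
  refine ⟨max (max 1 M) (max 1 M₁) * |M₄|, fun z hz hzM => ?_⟩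
  have hMi : 0 < M⁻¹ := inv_pos.2 hM
  have hd : 0 < |z.det| := hMi.trans_le hz
  have hd1 : |z.det| ≤ M₁ := hM₁ z hzM
  let r : ℝ := |z.det| ^ ((N : ℝ)⁻¹)
  have hr : 0 < r := Real.rpow_pos_of_pos hd _
  have hrN : r ^ N = |z.det| := Real.rpow_inv_natCast_pow hd.le hN0
  have hr1 : r⁻¹ ≤ max 1 M := by
    rcases le_or_gt 1 r with h1 | h1
    · exact (inv_le_one_of_one_le₀ h1).trans (le_max_left _ _)
    · refine le_trans ?_ (le_max_right _ _)
      have h2 : r ^ N ≤ r := pow_le_of_le_one hr.le h1.le hN0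
      have h3 : M⁻¹ ≤ r := hz.trans (hrN ▸ h2)
      exact inv_le_of_inv_le₀ hM h3
  have hr2 : r ≤ max 1 M₁ := by
    rcases le_or_gt r 1 with h1 | h1
    · exact h1.trans (le_max_left _ _)
    · refine le_trans ?_ (le_max_right _ _)
      have h2 : r ≤ r ^ N := le_self_pow₀ h1.le hN0
      exact h2.trans (hrN ▸ hd1)
  -- the sign
  let sg : ℝ := SignType.sign z.det
  have hdet0 : z.det ≠ 0 := abs_pos.1 hd
  have hsg : sg * z.det = |z.det| := sign_mul_self z.det
  have hsg2 : sg * sg = 1 := by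
    rcases lt_or_gt_of_ne hdet0 with h1 | h1
    · simp only [sg, sign_neg h1]
      norm_num
    · simp only [sg, sign_pos h1]
      norm_num
  let i₀ : Fin N := ⟨0, hN⟩
  let e : Fin N → ℝ := Function.update (fun _ => 1) i₀ sg
  have he2 : ∀ i, e i * e i = 1 := by
    intro i
    by_cases hi : i = i₀
    · subst hi
      simp only [e, Function.update_self, hsg2]
    · simp only [e, Function.update_of_ne hi, one_mul]
  have heabs : ∀ i, |e i| = 1 := by
    intro i
    have h1 := he2 i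
    rw [← abs_mul_abs_self] at h1
    nlinarith [abs_nonneg (e i)]
  have hedet : (diagonal e).det = sg := by
    rw [det_diagonal, Finset.prod_update_of_mem (Finset.mem_univ i₀)]
    simp
  have hee : diagonal e * diagonal e = (1 : Matrix (Fin N) (Fin N) ℝ) := by
    rw [diagonal_mul_diagonal]
    simp only [he2]
    exact diagonal_one
  have heo : diagonal e * (diagonal e)ᵀ = (1 : Matrix (Fin N) (Fin N) ℝ) := by
    rw [diagonal_transpose, hee]
  -- the matrix of determinant one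
  let w : Matrix (Fin N) (Fin N) ℝ := z * diagonal e * (r⁻¹ • 1)
  have hwdet : w.det = 1 := by
    change (z * diagonal e * (r⁻¹ • (1 : Matrix (Fin N) (Fin N) ℝ))).det = 1
    rw [det_mul, det_mul, hedet, det_smul, Matrix.det_one, Fintype.card_fin, mul_one, inv_pow, hrN,
      mul_comm z.det sg, hsg, mul_inv_cancel₀ hd.ne']
  have hw : nsq (RT.act w u) ≤ M₃ := by
    refine hM₃ _ fun i J => ?_
    change |RT.act (z * diagonal e * (r⁻¹ • (1 : Matrix (Fin N) (Fin N) ℝ))) u i J| ≤ M₂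
    rw [act_mul]
    refine hM₂ _ _ (fun k l => ?_) (fun i J => ?_) i J
    · refine le_trans ?_ (le_max_left _ _)
      rw [Matrix.smul_apply, smul_eq_mul, abs_mul, abs_of_pos (inv_pos.2 hr)]
      have h1 : |(1 : Matrix (Fin N) (Fin N) ℝ) k l| ≤ 1 := by
        rw [one_apply]
        split_ifs
        · rw [abs_one]
        · rw [abs_zero]; exact zero_le_one
      calc r⁻¹ * |(1 : Matrix (Fin N) (Fin N) ℝ) k l| ≤ r⁻¹ * 1 :=
            mul_le_mul_of_nonneg_left h1 (inv_pos.2 hr).le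
        _ ≤ max 1 M := by rw [mul_one]; exact hr1
    · refine le_trans ?_ (le_max_right _ _)
      refine abs_le_of_nsq_le ?_ i J
      rw [act_mul, nsq_orth heo]
      exact hzM
  obtain ⟨g, c, hg, hc, hwc, hc1, hc2⟩ := hM₄ w hwdet hw
  have hM₄ : 0 ≤ |M₄| := abs_nonneg _
  have hzw : z = g * (r • (c * diagonal e)) := by
    have h1 : w * (r • diagonal e) = z := by
      change z * diagonal e * (r⁻¹ • (1 : Matrix (Fin N) (Fin N) ℝ)) * (r • diagonal e) = z
      rw [Matrix.mul_smul, Matrix.mul_smul, mul_one, Matrix.smul_mul, smul_smul,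
        mul_inv_cancel₀ hr.ne', one_smul, mul_assoc, hee, mul_one]
    rw [← h1, hwc, Matrix.mul_smul, Matrix.mul_smul, mul_assoc]
  refine ⟨g, r • (c * diagonal e), hg, ?_, hzw, fun i j => ?_, fun i j => ?_⟩
  · rw [det_smul, det_mul, hc, one_mul, hedet]
    refine mul_ne_zero (pow_ne_zero _ hr.ne') ?_
    intro h0
    rw [h0, mul_zero] at hsg2
    exact zero_ne_one hsg2
  · rw [Matrix.smul_apply, smul_eq_mul, mul_diagonal, abs_mul, abs_mul, heabs, mul_one,
      abs_of_pos hr]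
    exact mul_le_mul (hr2.trans (le_max_right _ _)) ((hc1 i j).trans (le_abs_self _))
      (abs_nonneg _) (hr.le.trans (hr2.trans (le_max_right _ _)))
  · have hci : IsUnit c.det := by rw [hc]; exact isUnit_one
    have h1 : (r • (c * diagonal e))⁻¹ = r⁻¹ • (diagonal e * c⁻¹) := by
      refine inv_eq_right_inv ?_
      rw [smul_mul_smul_comm, mul_inv_cancel₀ hr.ne', one_smul]
      calc c * diagonal e * (diagonal e * c⁻¹) = c * (diagonal e * diagonal e) * c⁻¹ := by
            simp only [mul_assoc]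
        _ = 1 := by rw [hee, mul_one, mul_nonsing_inv _ hci]
    rw [h1, Matrix.smul_apply, smul_eq_mul, diagonal_mul, abs_mul, abs_mul, heabs, one_mul,
      abs_of_pos (inv_pos.2 hr)]
    exact mul_le_mul (hr1.trans (le_max_left _ _)) ((hc2 i j).trans (le_abs_self _))
      (abs_nonneg _) ((inv_pos.2 hr).le.trans (hr1.trans (le_max_left _ _)))

end Pool.Agent.Lib.MP_666dc0_nt.RT
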