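import Pool.Agent.Lib.MP_666dc0_nt.RT.R3c

/-!
# RT, R3d: the projection to the symmetric space
-/

open Matrix Filter Topology

namespace Pool.Agent.Lib.MP_666dc0_nt.RT

variable {N : ℕ} {I : Type} [Fintype I] {a : I → ℕ}

/-- The minimiser of `tr (W P)`. -/
noncomputable def projW (u : Ten N a) (P : Matrix (Fin N) (Fin N) ℝ) :
    Matrix (Fin N) (Fin N) ℝ := Classical.epsilon (IsProj u P)

/-- The projection of the positive definite matrices to the symmetric space: the minimiser `Z` of
`tr (Z⁻¹ P)`. -/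
noncomputable def proj (u : Ten N a) (P : Matrix (Fin N) (Fin N) ℝ) :
    Matrix (Fin N) (Fin N) ℝ := (projW u P)⁻¹

theorem projW_spec {u : Ten N a} (h : IsRed u) {P : Matrix (Fin N) (Fin N) ℝ} (hP : P.PosDef) :
    IsProj u P (projW u P) :=
  Classical.epsilon_spec (exists_isProj h hP)

theorem proj_mem {u : Ten N a} (h : IsRed u) {P : Matrix (Fin N) (Fin N) ℝ} (hP : P.PosDef) :
    proj u P ∈ XX u :=
  XX.inv h (projW_spec h hP).1

/-- The projection is equivariant. -/
theorem proj_conj {u : Ten N a} (h : IsRed u) (hm : IsMin u) {P g : Matrix (Fin N) (Fin N) ℝ}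
    (hP : P.PosDef) (hg : act g u = u) : proj u (gᵀ * P * g) = gᵀ * proj u P * g := by
  have hdet : g.det ≠ 0 := by
    intro h0
    have h1 := h.det_one g hg
    rw [h0, abs_zero] at h1
    exact zero_ne_one h1
  have hu : IsUnit g.det := isUnit_iff_ne_zero.2 hdet
  have hgt : act gᵀ u = u := hm.transpose hg (h.det_one g hg)
  have hP' : (gᵀ * P * g).PosDef := by
    have hunit : IsUnit g := (Matrix.isUnit_iff_isUnit_det g).2 hu
    have h3 := hunit.posDef_star_left_conjugate_iff.2 hP
    rw [star_eq_conjTranspose, conjTranspose_eq_transpose_of_trivial] at h3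
    exact h3
  have h1 := (projW_spec h hP).conj h hm hgt
  rw [transpose_transpose] at h1
  have h2 := (projW_spec h hP').unique h hm hP' h1
  unfold proj
  rw [h2]
  have hW := XX.det h (projW_spec h hP).1
  refine inv_eq_right_inv ?_
  have h4 : ((gᵀ)⁻¹)ᵀ = g⁻¹ := by rw [transpose_nonsing_inv, transpose_transpose]
  have hgi : g⁻¹ * g = 1 := nonsing_inv_mul _ hu
  have hgti : (gᵀ)⁻¹ * gᵀ = 1 := nonsing_inv_mul _ (by rw [det_transpose]; exact hu)
  rw [h4]
  calc g⁻¹ * projW u P * (gᵀ)⁻¹ * (gᵀ * (projW u P)⁻¹ * g)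
      = g⁻¹ * projW u P * ((gᵀ)⁻¹ * gᵀ) * (projW u P)⁻¹ * g := by simp only [mul_assoc]
    _ = g⁻¹ * (projW u P * (projW u P)⁻¹) * g := by rw [hgti, mul_one]; simp only [mul_assoc]
    _ = 1 := by rw [mul_nonsing_inv _ (isUnit_iff_ne_zero.2 hW), mul_one, hgi]

/-- The projection is continuous.
Proof: near `P₀` the minimisers are in a compact set; a cluster point is a minimiser for `P₀`. -/
theorem continuousOn_projW {u : Ten N a} (h : IsRed u) (hm : IsMin u) :
    ContinuousOn (projW u) {P | P.PosDef} := by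
  intro P₀ hP₀
  obtain ⟨c, hc, hcoer⟩ := exists_coercive hP₀
  have hK := isCompact_XX h ((P₀.trace + 1) / c)
  have hl : 𝓝[{P | P.PosDef}] P₀ ≤ 𝓝 P₀ := nhdsWithin_le_nhds
  refine hK.tendsto_nhds_of_unique_mapClusterPt ?_ ?_
  · have h1 : ∀ᶠ P' : Matrix (Fin N) (Fin N) ℝ in 𝓝 P₀, P'.trace < P₀.trace + 1 :=
      ((continuous_id.matrix_trace).tendsto P₀).eventually_lt_const (by
        change P₀.trace < P₀.trace + 1
        linarith)
    filter_upwards [hl hcoer, hl h1, self_mem_nhdsWithin] with P' h2 h3 hP'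
    have h4 := projW_spec h hP'
    refine ⟨h4.1, ?_⟩
    have h5 := h2 _ (XX.posDef h h4.1)
    have h6 := h4.2 1 (XX.one u)
    rw [one_mul] at h6
    rw [le_div_iff₀ hc]
    linarith [mul_comm c (projW u P').trace]
  · rintro W ⟨hW, -⟩ hcl
    obtain ⟨U, hU, hUW⟩ := mapClusterPt_iff_ultrafilter.1 hcl
    refine IsProj.unique h hm hP₀ ⟨hW, fun W' hW' => ?_⟩ (projW_spec h hP₀)
    have hid : Tendsto (fun P : Matrix (Fin N) (Fin N) ℝ => P) U (𝓝 P₀) := hU.trans hl
    have hc1 : Continuous fun p : Matrix (Fin N) (Fin N) ℝ × Matrix (Fin N) (Fin N) ℝ =>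
        (p.1 * p.2).trace := (continuous_fst.matrix_mul continuous_snd).matrix_trace
    have h7a : Tendsto (fun P : Matrix (Fin N) (Fin N) ℝ => (projW u P, P)) U (𝓝 (W, P₀)) :=
      Tendsto.prodMk_nhds hUW hid
    have h7b : Tendsto (fun p : Matrix (Fin N) (Fin N) ℝ × Matrix (Fin N) (Fin N) ℝ =>
        (p.1 * p.2).trace) (𝓝 (W, P₀)) (𝓝 (W * P₀).trace) := hc1.tendsto (W, P₀)
    have h7 := h7b.comp h7a
    have h8a : Continuous fun P : Matrix (Fin N) (Fin N) ℝ => (W' * P).trace :=
      (continuous_const.matrix_mul continuous_id).matrix_trace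
    have h8b : Tendsto (fun P : Matrix (Fin N) (Fin N) ℝ => (W' * P).trace) (𝓝 P₀)
        (𝓝 (W' * P₀).trace) := h8a.tendsto P₀
    have h8 := h8b.comp hid
    refine le_of_tendsto_of_tendsto h7 h8 ?_
    have h9 : ∀ᶠ P in 𝓝[{P : Matrix (Fin N) (Fin N) ℝ | P.PosDef}] P₀,
        (projW u P * P).trace ≤ (W' * P).trace := by
      filter_upwards [self_mem_nhdsWithin] with P hP
      exact (projW_spec h hP).2 W' hW'
    exact hU h9

theorem continuousOn_proj {u : Ten N a} (h : IsRed u) (hm : IsMin u) :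
    ContinuousOn (proj u) {P | P.PosDef} := by
  have h1 : ∀ P : Matrix (Fin N) (Fin N) ℝ, P.PosDef → proj u P = (projW u P).adjugate := by
    intro P hP
    have h2 := (projW_spec h hP).1
    have h3 : (projW u P).det = 1 := by
      have h4 := h.det_one _ h2.2
      rw [abs_of_pos (XX.posDef h h2).det_pos] at h4
      exact h4
    unfold proj
    rw [inv_def, h3, Ring.inverse_one, one_smul]
  have h5 : ContinuousOn (fun P => (projW u P).adjugate) {P | P.PosDef} := by
    have h6 : Continuous fun P : Matrix (Fin N) (Fin N) ℝ => P.adjugate :=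
      continuous_id.matrix_adjugate
    exact h6.comp_continuousOn (continuousOn_projW h hm)
  exact h5.congr h1

end Pool.Agent.Lib.MP_666dc0_nt.RT
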