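import Pool.Agent.Lib.MP_666dc0_nt.RT.R1
import Pool.Agent.Lib.MP_666dc0_nt.RT.R2b

/-!
# RT, R4: the key bound
-/

open Matrix

namespace Pool.Agent.Lib.MP_666dc0_nt.RT

variable {N : ℕ} {I : Type} [Fintype I] {a : I → ℕ}

theorem abs_mul_le {A B : Matrix (Fin N) (Fin N) ℝ} {x y : ℝ} (hx : ∀ i j, |A i j| ≤ x)
    (hy : ∀ i j, |B i j| ≤ y) (i j : Fin N) : |(A * B) i j| ≤ N * (x * y) := by
  rw [mul_apply]
  calc |∑ k, A i k * B k j| ≤ ∑ k, |A i k * B k j| := Finset.abs_sum_le_sum_abs _ _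
    _ ≤ ∑ _k : Fin N, x * y := by
        refine Finset.sum_le_sum fun k _ => ?_
        rw [abs_mul]
        exact mul_le_mul (hx i k) (hy k j) (abs_nonneg _) ((abs_nonneg _).trans (hx i k))
    _ = N * (x * y) := by
        rw [Finset.sum_const, Finset.card_univ, Fintype.card_fin, nsmul_eq_mul]

theorem abs_orth_le {O : Matrix (Fin N) (Fin N) ℝ} (hO : Oᵀ * O = 1) (i j : Fin N) :
    |O i j| ≤ 1 := by
  have h1 : ∑ k, O k j * O k j = 1 := by
    have h2 := congrFun (congrFun hO j) j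
    rw [mul_apply, one_apply_eq] at h2
    simpa only [transpose_apply] using h2
  have h3 : O i j * O i j ≤ 1 := by
    rw [← h1]
    exact Finset.single_le_sum (f := fun k => O k j * O k j) (fun k _ => mul_self_nonneg _)
      (Finset.mem_univ i)
  rw [← abs_mul_abs_self] at h3
  nlinarith [abs_nonneg (O i j)]

/-- The key bound of reduction theory: if `s` is a basis whose Gram matrix for the standard form is
reduced and the non-zero values of the forms `u` on the basis are bounded below then they are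
bounded above. -/
theorem key_bound {u : Ten N a} (h : IsRed u) (hm : IsMin u) {C d Δ : ℝ} (hC : 1 ≤ C) (hd : 0 < d)
    (hΔ : 0 < Δ) : ∃ M : ℝ, ∀ (s n : Matrix (Fin N) (Fin N) ℝ) (α : Fin N → ℝ), (∀ i, 0 < α i) →
      (∀ i j, i ≤ j → α i ≤ C * α j) → (∀ i j, |n i j| ≤ C) → (∀ i j, j < i → n i j = 0) →
      (∀ i, n i i = 1) → sᵀ * s = nᵀ * diagonal (fun i => α i ^ 2) * n → |s.det| ≤ Δ →
      (∀ i J, act s u i J ≠ 0 → d ≤ |act s u i J|) → ∀ i J, |act s u i J| ≤ M := by
  have hC0 : 0 < C := one_pos.trans_le hC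
  -- the constants
  obtain ⟨Mu, hMu⟩ : ∃ Mu : ℝ, ∀ i J, |u i J| ≤ Mu :=
    ⟨nsq u + 1, fun i J => abs_le_of_nsq_le (le_refl _) i J⟩
  obtain ⟨B2, hB2⟩ := exists_act_le N a (max (N * (1 * (C * C))) Mu)
  let B2' : ℝ := max B2 1
  have hB2' : 0 < B2' := one_pos.trans_le (le_max_right _ _)
  obtain ⟨B3, hB3⟩ := exists_nsq_le N a (B2' / d * B2')
  have hM0 : 0 < max B3 Δ := hΔ.trans_le (le_max_right _ _)
  obtain ⟨B4, hB4⟩ := h.proper hM0
  obtain ⟨B5, hB5⟩ := exists_act_le N a (max (N * ((N * (B4 * (C * C ^ 2))) * C)) Mu)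
  refine ⟨B5, fun s n α hα hαC hn hn0 hn1 hs hsΔ hlow => ?_⟩
  have hα0 : ∀ i, α i ≠ 0 := fun i => (hα i).ne'
  set A : Matrix (Fin N) (Fin N) ℝ := diagonal α with hA
  set Ai : Matrix (Fin N) (Fin N) ℝ := diagonal fun i => (α i)⁻¹ with hAi
  have hAAi : A * Ai = 1 := by
    rw [hA, hAi, diagonal_mul_diagonal]
    simp only [mul_inv_cancel₀ (hα0 _)]
    exact diagonal_one
  have hAiA : Ai * A = 1 := mul_eq_one_comm.1 hAAi
  have hAt : Aᵀ = A := diagonal_transpose _
  have hAit : Aiᵀ = Ai := diagonal_transpose _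
  have hAA : A * A = diagonal fun i => α i ^ 2 := by
    rw [hA, diagonal_mul_diagonal]
    congr 1
    funext i
    ring
  have hndet : n.det = 1 := by
    have h1 : n.BlockTriangular id := fun i j hij => hn0 i j hij
    rw [det_of_isUpperTriangular h1]
    simp [hn1]
  have hnu : IsUnit n.det := by rw [hndet]; exact isUnit_one
  have hnni : n * n⁻¹ = 1 := mul_nonsing_inv _ hnu
  have hnin : n⁻¹ * n = 1 := nonsing_inv_mul _ hnu
  -- the orthogonal matrix
  let k : Matrix (Fin N) (Fin N) ℝ := s * n⁻¹ * Ai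
  let n' : Matrix (Fin N) (Fin N) ℝ := A * n * Ai
  have hkk : kᵀ * k = 1 := by
    change (s * n⁻¹ * Ai)ᵀ * (s * n⁻¹ * Ai) = 1
    rw [transpose_mul, transpose_mul, hAit]
    have hnt : (n⁻¹)ᵀ * nᵀ = 1 := by rw [← transpose_mul, hnni, transpose_one]
    calc Ai * ((n⁻¹)ᵀ * sᵀ) * (s * n⁻¹ * Ai) = Ai * (n⁻¹)ᵀ * (sᵀ * s) * n⁻¹ * Ai := by
          simp only [mul_assoc]
      _ = Ai * ((n⁻¹)ᵀ * nᵀ) * (A * A) * (n * n⁻¹) * Ai := by
          rw [hs, ← hAA]
          simp only [mul_assoc]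
      _ = (Ai * A) * (A * Ai) := by
          rw [hnt, hnni, mul_one, mul_one]
          simp only [mul_assoc]
      _ = 1 := by rw [hAiA, hAAi, mul_one]
  have hkk' : k * kᵀ = 1 := mul_eq_one_comm.1 hkk
  have hn'A : n' * A = A * n := by
    change A * n * Ai * A = A * n
    rw [mul_assoc, hAiA, mul_one]
  have hskn : s = k * n' * A := by
    rw [mul_assoc, hn'A]
    change s = s * n⁻¹ * Ai * (A * n)
    calc s = s * (n⁻¹ * n) := by rw [hnin, mul_one]
      _ = s * n⁻¹ * (Ai * A) * n := by rw [hAiA, mul_one, mul_assoc]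
      _ = _ := by simp only [mul_assoc]
  have hn'e : ∀ i j, n' i j = α i * n i j * (α j)⁻¹ := by
    intro i j
    change (A * n * Ai) i j = _
    rw [hAi, mul_diagonal, hA, diagonal_mul]
  have hn'b : ∀ i j, |n' i j| ≤ C * C := by
    intro i j
    rw [hn'e]
    rcases lt_or_ge j i with hij | hij
    · rw [hn0 i j hij, mul_zero, zero_mul, abs_zero]
      positivity
    · rw [abs_mul, abs_mul, abs_of_pos (hα i), abs_of_pos (inv_pos.2 (hα j))]
      have h1 : α i * (α j)⁻¹ ≤ C := by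
        rw [← div_eq_mul_inv, div_le_iff₀ (hα j)]
        exact hαC i j hij
      calc α i * |n i j| * (α j)⁻¹ = (α i * (α j)⁻¹) * |n i j| := by ring
        _ ≤ C * C := mul_le_mul h1 (hn i j) (abs_nonneg _) hC0.le
  -- the values
  have hT : ∀ i J, |act (k * n') u i J| ≤ B2' := by
    intro i J
    refine (hB2 _ _ (fun i j => ?_) (fun i J => ?_) i J).trans (le_max_left _ _)
    · exact (abs_mul_le (abs_orth_le hkk) hn'b i j).trans (le_max_left _ _)
    · exact (hMu i J).trans (le_max_right _ _)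
  have hval : ∀ i J, act s u i J = (∏ t, α (J t)) * act (k * n') u i J := by
    intro i J
    conv_lhs => rw [hskn, act_mul, hA, act_diag]
  have hprod : ∀ i (J : Fin (a i) → Fin N), 0 < ∏ t, α (J t) := fun i J =>
    Finset.prod_pos fun t _ => hα _
  have hval2 : ∀ i J, act (k * n' * Ai) u i J = (∏ t, α (J t))⁻¹ * act (k * n') u i J := by
    intro i J
    rw [act_mul, hAi, act_diag, Finset.prod_inv_distrib]
  have hb3 : nsq (act (k * n' * Ai) u) ≤ B3 := by
    refine hB3 _ fun i J => ?_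
    rw [hval2, abs_mul, abs_of_pos (inv_pos.2 (hprod i J))]
    by_cases h0 : act (k * n') u i J = 0
    · rw [h0, abs_zero, mul_zero]
      positivity
    · have h1 : act s u i J ≠ 0 := by
        rw [hval]
        exact mul_ne_zero (hprod i J).ne' h0
      have h2 := hlow i J h1
      rw [hval, abs_mul, abs_of_pos (hprod i J)] at h2
      have h3 : d ≤ (∏ t, α (J t)) * B2' :=
        h2.trans (mul_le_mul_of_nonneg_left (hT i J) (hprod i J).le)
      have h4 : (∏ t, α (J t))⁻¹ ≤ B2' / d := by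
        rw [inv_le_comm₀ (hprod i J) (div_pos hB2' hd), inv_div, div_le_iff₀ hB2']
        exact h3
      exact mul_le_mul h4 (hT i J) (abs_nonneg _) (div_pos hB2' hd).le
  -- the determinant
  have hkdet : |k.det| = 1 := by
    have h1 := congrArg Matrix.det hkk
    rw [det_mul, det_transpose, Matrix.det_one, ← abs_mul_abs_self] at h1
    nlinarith [abs_nonneg k.det]
  have hn'det : n'.det = 1 := by
    change (A * n * Ai).det = 1
    rw [det_mul, det_mul, hndet, mul_one, ← det_mul, hAAi, Matrix.det_one]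
  have hAdet : 0 < A.det := by
    rw [hA, det_diagonal]
    exact Finset.prod_pos fun i _ => hα i
  have hAidet : Ai.det = (A.det)⁻¹ := by
    rw [hA, hAi, det_diagonal, det_diagonal, Finset.prod_inv_distrib]
  have hsdet : |s.det| = A.det := by
    rw [hskn, det_mul, det_mul, hn'det, mul_one, abs_mul, hkdet, one_mul, abs_of_pos hAdet]
  have hdet : (max B3 Δ)⁻¹ ≤ |(k * n' * Ai).det| := by
    rw [det_mul, det_mul, hn'det, mul_one, abs_mul, hkdet, one_mul, hAidet,
      abs_of_pos (inv_pos.2 hAdet)]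
    exact inv_anti₀ hAdet ((hsdet ▸ hsΔ).trans (le_max_right _ _))
  obtain ⟨g, c, hg, hc, hgc, hc1, hc2⟩ := hB4 _ hdet (hb3.trans (le_max_left _ _))
  have hgd : |g.det| = 1 := h.det_one g hg
  have hgd0 : g.det ≠ 0 := by
    intro h0
    rw [h0, abs_zero] at hgd
    exact zero_ne_one hgd
  have hgi : act (g⁻¹)ᵀ u = u := by
    have h1 := act_inv hg hgd0
    exact hm.transpose h1 (h.det_one _ h1)
  have hgg : (g⁻¹)ᵀ * gᵀ = 1 := by
    rw [← transpose_mul, mul_nonsing_inv _ (isUnit_iff_ne_zero.2 hgd0), transpose_one]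
  have hcc : (c⁻¹)ᵀ * cᵀ = 1 := by
    rw [← transpose_mul, mul_nonsing_inv _ (isUnit_iff_ne_zero.2 hc), transpose_one]
  have hsy : s = (g⁻¹)ᵀ * ((c⁻¹)ᵀ * (Ai * n'ᵀ * A) * n) := by
    have h1 : Ai * n'ᵀ = cᵀ * gᵀ * k := by
      have h2 : (k * n' * Ai)ᵀ = cᵀ * gᵀ := by rw [hgc, transpose_mul]
      have h3 : (k * n' * Ai)ᵀ = Ai * (n'ᵀ * kᵀ) := by
        rw [transpose_mul (k * n') Ai, transpose_mul k n', hAit]
      rw [← h2, h3]
      calc Ai * n'ᵀ = Ai * n'ᵀ * (kᵀ * k) := by rw [hkk, mul_one]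
        _ = _ := by simp only [mul_assoc]
    calc s = k * n' * A := hskn
      _ = ((g⁻¹)ᵀ * ((c⁻¹)ᵀ * cᵀ) * gᵀ) * k * (n' * A) := by
          rw [hcc, mul_one, hgg, one_mul]
          simp only [mul_assoc]
      _ = (g⁻¹)ᵀ * ((c⁻¹)ᵀ * (cᵀ * gᵀ * k) * (A * n)) := by
          rw [hn'A]
          simp only [mul_assoc]
      _ = _ := by
          rw [← h1]
          simp only [mul_assoc]
  have hm3 : ∀ i j, |(Ai * n'ᵀ * A) i j| ≤ C * C ^ 2 := by
    intro i j
    have h1 : (Ai * n'ᵀ * A) i j = n j i * (α j * (α i)⁻¹) ^ 2 := by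
      rw [hA, mul_diagonal, hAi, diagonal_mul, transpose_apply, hn'e]
      ring
    rw [h1]
    rcases lt_or_ge i j with hij | hij
    · rw [hn0 j i hij, zero_mul, abs_zero]
      positivity
    · have h2 : α j * (α i)⁻¹ ≤ C := by
        rw [← div_eq_mul_inv, div_le_iff₀ (hα i)]
        exact hαC j i hij
      have h3 : 0 ≤ α j * (α i)⁻¹ := mul_nonneg (hα j).le (inv_pos.2 (hα i)).le
      rw [abs_mul, abs_of_nonneg (sq_nonneg (α j * (α i)⁻¹))]
      exact mul_le_mul (hn j i) (pow_le_pow_left₀ h3 h2 2) (sq_nonneg _) hC0.le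
  have hfin : act s u = act ((c⁻¹)ᵀ * (Ai * n'ᵀ * A) * n) u := by
    conv_lhs => rw [hsy, act_mul, hgi]
  intro i J
  rw [hfin]
  refine hB5 _ _ (fun i j => ?_) (fun i J => (hMu i J).trans (le_max_right _ _)) i J
  refine (abs_mul_le (abs_mul_le (A := (c⁻¹)ᵀ) (x := B4) (fun i j => ?_) hm3) hn i j).trans
    (le_max_left _ _)
  rw [transpose_apply]
  exact hc2 j i

end Pool.Agent.Lib.MP_666dc0_nt.RT
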