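import Pool.Agent.Lib.MP_666dc0_nt.RT.Base

/-!
# RT, R1: minimal vectors and self-adjointness (Kempf-Ness)
-/

open Matrix

namespace Pool.Agent.Lib.MP_666dc0_nt.RT

variable {N : ℕ} {I : Type} [Fintype I] {a : I → ℕ}

/-- The spectral theorem. -/
theorem exists_spectral {S : Matrix (Fin N) (Fin N) ℝ} (hS : S.PosDef) :
    ∃ (O : Matrix (Fin N) (Fin N) ℝ) (x : Fin N → ℝ), O * Oᵀ = 1 ∧ Oᵀ * O = 1 ∧ (∀ i, 0 < x i) ∧
      S = O * diagonal x * Oᵀ := by
  have hH := hS.isHermitian
  refine ⟨(hH.eigenvectorUnitary : Matrix (Fin N) (Fin N) ℝ), hH.eigenvalues, ?_, ?_,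
    hS.eigenvalues_pos, ?_⟩
  · have h := Unitary.mul_star_self_of_mem hH.eigenvectorUnitary.2
    rw [star_eq_conjTranspose, conjTranspose_eq_transpose_of_trivial] at h
    exact h
  · have h := Unitary.star_mul_self_of_mem hH.eigenvectorUnitary.2
    rw [star_eq_conjTranspose, conjTranspose_eq_transpose_of_trivial] at h
    exact h
  · have h := hH.spectral_theorem
    rw [Unitary.conjStarAlgAut_apply, star_eq_conjTranspose,
      conjTranspose_eq_transpose_of_trivial] at h
    exact h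

omit [Fintype I] in
/-- Conjugates of diagonal matrices in the stabiliser. -/
theorem act_conj_diag {O : Matrix (Fin N) (Fin N) ℝ} (hO : O * Oᵀ = 1) {u : Ten N a}
    {f : Fin N → ℝ} (hf : ∀ i J, act O u i J ≠ 0 → ∏ t, f (J t) = 1) :
    act (O * diagonal f * Oᵀ) u = u := by
  rw [act_mul, act_mul]
  have h1 : act (diagonal f) (act O u) = act O u := by
    funext i J
    rw [act_diag]
    by_cases h : act O u i J = 0
    · rw [h, mul_zero]
    · rw [hf i J h, one_mul]
  rw [h1, ← act_mul, hO, act_one]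

omit [Fintype I] in
/-- The converse. -/
theorem prod_eq_one_of_act {O : Matrix (Fin N) (Fin N) ℝ} (hO' : Oᵀ * O = 1) {u : Ten N a}
    {f : Fin N → ℝ} (h : act (O * diagonal f * Oᵀ) u = u) (i : I) (J : Fin (a i) → Fin N)
    (hne : act O u i J ≠ 0) : ∏ t, f (J t) = 1 := by
  have h1 : act (diagonal f) (act O u) = act O u := by
    have h2 := congrArg (act O) h
    rw [← act_mul, mul_assoc, hO', mul_one, act_mul] at h2
    exact h2
  have h3 := congrFun (congrFun h1 i) J
  rw [act_diag] at h3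
  exact mul_right_cancel₀ hne (h3.trans (one_mul _).symm)

private theorem R1_nsq_diag {O : Matrix (Fin N) (Fin N) ℝ} (hO' : Oᵀ * O = 1)
    (f : Fin N → ℝ) (u : Ten N a) : nsq (act (O * diagonal f * Oᵀ) u) =
      ∑ i, ∑ J, ((∏ t, f (J t)) * act O u i J) ^ 2 := by
  rw [act_mul, nsq_orth (by rw [transpose_transpose]; exact hO'), act_mul]
  unfold nsq
  simp only [act_diag]

/-- Kempf-Ness: the eigenvalues of `(g gᵀ)^(1/2)` on the components of a minimal vector are `1`.
Proof: `c_J = (act O u) J`, `x = O diag(ξ) Oᵀ`; `∑ c_J² ≤ ∑ ξ_J c_J²` by minimality (for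
`O diag(√ξ) Oᵀ`), `∑ ξ_J² c_J² = ∑ c_J²` since `x⁻¹ g` is orthogonal; so `∑ c_J² (1 - ξ_J)² ≤ 0`. -/
theorem IsMin.prod_eq_one {u : Ten N a} (hu : IsMin u) {g : Matrix (Fin N) (Fin N) ℝ}
    (hg : act g u = u) (hdet : |g.det| = 1) {O : Matrix (Fin N) (Fin N) ℝ} {x : Fin N → ℝ}
    (hO : O * Oᵀ = 1) (hO' : Oᵀ * O = 1) (hx : ∀ i, 0 < x i)
    (h : g * gᵀ = O * diagonal (fun i => x i ^ 2) * Oᵀ) (i : I) (J : Fin (a i) → Fin N)
    (hne : act O u i J ≠ 0) : ∏ t, x (J t) = 1 := by
  have hx0 : ∀ i, x i ≠ 0 := fun i => (hx i).ne'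
  -- the matrices
  set X : Matrix (Fin N) (Fin N) ℝ := O * diagonal x * Oᵀ with hX
  set X' : Matrix (Fin N) (Fin N) ℝ := O * diagonal (fun i => (x i)⁻¹) * Oᵀ with hX'
  have hmul : ∀ f f' : Fin N → ℝ, (O * diagonal f * Oᵀ) * (O * diagonal f' * Oᵀ) =
      O * diagonal (fun i => f i * f' i) * Oᵀ := by
    intro f f'
    calc (O * diagonal f * Oᵀ) * (O * diagonal f' * Oᵀ)
        = O * diagonal f * (Oᵀ * O) * diagonal f' * Oᵀ := by simp only [mul_assoc]
      _ = O * (diagonal f * diagonal f') * Oᵀ := by rw [hO', mul_one]; simp only [mul_assoc]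
      _ = _ := by rw [diagonal_mul_diagonal]
  have hXX' : X * X' = 1 := by
    rw [hX, hX', hmul]
    have : (fun i => x i * (x i)⁻¹) = fun _ => (1 : ℝ) := funext fun i => mul_inv_cancel₀ (hx0 i)
    rw [this]
    change O * diagonal (fun _ => (1 : ℝ)) * Oᵀ = 1
    rw [diagonal_one, mul_one, hO]
  have hX'X : X' * X = 1 := mul_eq_one_comm.1 hXX'
  have hXt : X'ᵀ = X' := by
    rw [hX', transpose_mul, transpose_mul, transpose_transpose, diagonal_transpose, mul_assoc]
  have hXsq : X * X = g * gᵀ := by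
    rw [h, hX, hmul]
    congr 3
    funext i
    ring
  -- the orthogonal matrix
  have hk : (X' * g) * (X' * g)ᵀ = 1 := by
    rw [transpose_mul, hXt]
    calc X' * g * (gᵀ * X') = X' * (g * gᵀ) * X' := by simp only [mul_assoc]
      _ = (X' * X) * (X * X') := by rw [← hXsq]; simp only [mul_assoc]
      _ = 1 := by rw [hX'X, hXX', mul_one]
  have hk' : (X' * g)ᵀ * (X' * g) = 1 := mul_eq_one_comm.1 hk
  have hXg : X = g * (X' * g)ᵀ := by
    calc X = X * ((X' * g) * (X' * g)ᵀ) := by rw [hk, mul_one]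
      _ = (X * X') * g * (X' * g)ᵀ := by simp only [mul_assoc]
      _ = _ := by rw [hXX', one_mul]
  have h1 : nsq (act X u) = nsq u := by
    rw [hXg, act_mul, hg]
    exact nsq_orth (by rw [transpose_transpose]; exact hk') u
  -- the square root
  have h2 : nsq u ≤ nsq (act (O * diagonal (fun i => Real.sqrt (x i)) * Oᵀ) u) := by
    refine hu _ ?_
    have hd : (O * diagonal (fun i => x i ^ 2) * Oᵀ).det = 1 := by
      rw [← h, det_mul, det_transpose, ← abs_mul_abs_self, hdet, one_mul]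
    have hOO : O.det * O.det = 1 := by
      have := congrArg det hO
      rw [det_mul, det_transpose, det_one] at this
      exact this
    rw [det_mul, det_mul, det_transpose, det_diagonal] at hd ⊢
    have h3 : ∏ i, x i ^ 2 = 1 := by
      calc ∏ i, x i ^ 2 = (O.det * O.det) * ∏ i, x i ^ 2 := by rw [hOO, one_mul]
        _ = O.det * (∏ i, x i ^ 2) * O.det := by ring
        _ = 1 := hd
    have h4 : (∏ i, Real.sqrt (x i)) ^ 4 = 1 := by
      rw [← Finset.prod_pow, ← h3]
      refine Finset.prod_congr rfl fun i _ => ?_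
      have := Real.sq_sqrt (hx i).le
      calc Real.sqrt (x i) ^ 4 = (Real.sqrt (x i) ^ 2) ^ 2 := by ring
        _ = x i ^ 2 := by rw [this]
    have h5 : ∏ i, Real.sqrt (x i) = 1 := by
      have h6 : 0 ≤ ∏ i, Real.sqrt (x i) := Finset.prod_nonneg fun i _ => Real.sqrt_nonneg _
      exact (pow_eq_one_iff_of_nonneg h6 (by norm_num)).1 h4
    rw [h5, mul_one, hOO]
  rw [R1_nsq_diag hO'] at h1 h2
  have h0 : nsq u = ∑ i, ∑ J, (act O u i J) ^ 2 := by
    rw [← nsq_orth hO u]
    rfl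
  have hp : ∀ (i : I) (J : Fin (a i) → Fin N),
      (∏ t, Real.sqrt (x (J t))) ^ 2 = ∏ t, x (J t) := by
    intro i J
    rw [← Finset.prod_pow]
    exact Finset.prod_congr rfl fun t _ => Real.sq_sqrt (hx _).le
  have h6 : ∑ i, ∑ J : Fin (a i) → Fin N, (act O u i J) ^ 2 * (1 - ∏ t, x (J t)) ^ 2 ≤ 0 := by
    have h7 : ∑ i, ∑ J : Fin (a i) → Fin N, (act O u i J) ^ 2 * (1 - ∏ t, x (J t)) ^ 2 =
        ∑ i, ∑ J : Fin (a i) → Fin N, (act O u i J) ^ 2 -
        2 * ∑ i, ∑ J : Fin (a i) → Fin N, ((∏ t, Real.sqrt (x (J t))) * act O u i J) ^ 2 +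
        ∑ i, ∑ J : Fin (a i) → Fin N, ((∏ t, x (J t)) * act O u i J) ^ 2 := by
      simp only [Finset.mul_sum]
      rw [← Finset.sum_sub_distrib, ← Finset.sum_add_distrib]
      refine Finset.sum_congr rfl fun i _ => ?_
      rw [← Finset.sum_sub_distrib, ← Finset.sum_add_distrib]
      refine Finset.sum_congr rfl fun J _ => ?_
      rw [mul_pow, mul_pow, hp i J]
      ring
    rw [h7, h1, ← h0]
    linarith
  have h8 : (act O u i J) ^ 2 * (1 - ∏ t, x (J t)) ^ 2 = 0 := by
    refine le_antisymm ?_ (by positivity)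
    refine le_trans ?_ h6
    refine le_trans ?_ (Finset.single_le_sum
      (f := fun i => ∑ J : Fin (a i) → Fin N, (act O u i J) ^ 2 * (1 - ∏ t, x (J t)) ^ 2)
      (fun i _ => Finset.sum_nonneg fun J _ => by positivity) (Finset.mem_univ i))
    exact Finset.single_le_sum
      (f := fun J : Fin (a i) → Fin N => (act O u i J) ^ 2 * (1 - ∏ t, x (J t)) ^ 2)
      (fun J _ => by positivity) (Finset.mem_univ J)
  have h9 : (1 - ∏ t, x (J t)) ^ 2 = 0 := by
    rcases mul_eq_zero.1 h8 with h | h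
    · exact absurd (pow_eq_zero_iff (by norm_num) |>.1 h) hne
    · exact h
  have h10 : 1 - ∏ t, x (J t) = 0 := pow_eq_zero_iff (by norm_num) |>.1 h9
  linarith

omit [Fintype I] in
/-- The stabiliser is closed under inverses. -/
theorem act_inv {u : Ten N a} {g : Matrix (Fin N) (Fin N) ℝ} (hg : act g u = u)
    (hdet : g.det ≠ 0) : act g⁻¹ u = u := by
  have hu : IsUnit g.det := isUnit_iff_ne_zero.2 hdet
  calc act g⁻¹ u = act g⁻¹ (act g u) := by rw [hg]
    _ = act (g * g⁻¹) u := (act_mul _ _ _).symm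
    _ = u := by rw [mul_nonsing_inv _ hu, act_one]

omit [Fintype I] in
/-- A positive definite matrix in the stabiliser has a square root in it. -/
theorem exists_sqrt {u : Ten N a} {S : Matrix (Fin N) (Fin N) ℝ} (hS : S.PosDef)
    (h : act S u = u) : ∃ (O : Matrix (Fin N) (Fin N) ℝ) (x : Fin N → ℝ), O * Oᵀ = 1 ∧
      Oᵀ * O = 1 ∧ (∀ i, 0 < x i) ∧ S = O * diagonal (fun i => x i ^ 4) * Oᵀ ∧
      act (O * diagonal x * Oᵀ) u = u := by
  obtain ⟨O, y, hO, hO', hy, hS'⟩ := exists_spectral hS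
  have hy' : ∀ i, Real.sqrt (Real.sqrt (y i)) ^ 4 = y i := by
    intro i
    have h1 := Real.sq_sqrt (Real.sqrt_nonneg (y i))
    have h2 := Real.sq_sqrt (hy i).le
    calc Real.sqrt (Real.sqrt (y i)) ^ 4 = (Real.sqrt (Real.sqrt (y i)) ^ 2) ^ 2 := by ring
      _ = y i := by rw [h1, h2]
  refine ⟨O, fun i => Real.sqrt (Real.sqrt (y i)), hO, hO',
    fun i => Real.sqrt_pos.2 (Real.sqrt_pos.2 (hy i)), ?_, ?_⟩
  · rw [hS']
    congr 3
    funext i
    exact (hy' i).symm
  · refine act_conj_diag hO fun i J hne => ?_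
    rw [hS'] at h
    have h1 := prod_eq_one_of_act hO' h i J hne
    have h2 : (∏ t, Real.sqrt (Real.sqrt (y (J t)))) ^ 4 = 1 := by
      rw [← Finset.prod_pow]
      simp only [hy']
      exact h1
    exact (pow_eq_one_iff_of_nonneg (Finset.prod_nonneg fun i _ => Real.sqrt_nonneg _)
      (by norm_num)).1 h2

/-- The stabiliser of a minimal vector is closed under transposition. -/
theorem IsMin.transpose {u : Ten N a} (hu : IsMin u) {g : Matrix (Fin N) (Fin N) ℝ}
    (hg : act g u = u) (hdet : |g.det| = 1) : act gᵀ u = u := by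
  have hdet0 : g.det ≠ 0 := by
    intro h
    rw [h, abs_zero] at hdet
    exact zero_ne_one hdet
  have hunit : IsUnit g := (Matrix.isUnit_iff_isUnit_det g).2 (isUnit_iff_ne_zero.2 hdet0)
  have hpos : (g * gᵀ).PosDef := by
    have h1 := Matrix.PosDef.one (n := Fin N) (R := ℝ)
    have h2 : g * gᵀ = g * 1 * gᴴ := by
      rw [mul_one, conjTranspose_eq_transpose_of_trivial]
    rw [h2]
    exact hunit.posDef_star_right_conjugate_iff.2 h1
  obtain ⟨O, y, hO, hO', hy, hS⟩ := exists_spectral hpos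
  have hy' : ∀ i, Real.sqrt (y i) ^ 2 = y i := fun i => Real.sq_sqrt (hy i).le
  have hS' : g * gᵀ = O * diagonal (fun i => Real.sqrt (y i) ^ 2) * Oᵀ := by
    simp only [hy']
    exact hS
  have hone := fun i J => hu.prod_eq_one hg hdet hO hO' (fun i => Real.sqrt_pos.2 (hy i)) hS' i J
  -- `g gᵀ` is in the stabiliser
  have h3 : act (g * gᵀ) u = u := by
    rw [hS']
    refine act_conj_diag hO fun i J hne => ?_
    rw [Finset.prod_pow, hone i J hne, one_pow]
  rw [act_mul, hg] at h3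
  exact h3

end Pool.Agent.Lib.MP_666dc0_nt.RT
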