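import Pool.Agent.Lib.MP_666dc0_nt.RT.Base

/-!
# RT, R2: properness of the action on a closed orbit
-/

open Matrix

namespace Pool.Agent.Lib.MP_666dc0_nt.RT

variable {N : ℕ} {I : Type} [Fintype I] {a : I → ℕ}

/-- The orbit of `u` under `SL_N(ℝ)`. -/
private abbrev Orb (u : Ten N a) : Type :=
  {t : Ten N a // t ∈ {t : Ten N a | ∃ z : Matrix (Fin N) (Fin N) ℝ, z.det = 1 ∧ t = act z u}}

private def sm (g : SpecialLinearGroup (Fin N) ℝ) : Matrix (Fin N) (Fin N) ℝ := g

private theorem sm_mul (g h : SpecialLinearGroup (Fin N) ℝ) : sm (g * h) = sm g * sm h :=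
  Matrix.SpecialLinearGroup.coe_mul g h

private theorem sm_one : sm (1 : SpecialLinearGroup (Fin N) ℝ) = 1 := Matrix.SpecialLinearGroup.coe_one

private theorem sm_det (g : SpecialLinearGroup (Fin N) ℝ) : (sm g).det = 1 :=
  Matrix.SpecialLinearGroup.det_coe g

private theorem continuous_sm : Continuous (sm : SpecialLinearGroup (Fin N) ℝ → _) :=
  (SpecialLinearGroup.isClosedEmbedding_val (n := Fin N) (R := ℝ)).continuous

private theorem sm_inv_mul (g : SpecialLinearGroup (Fin N) ℝ) : sm g⁻¹ * sm g = 1 := by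
  rw [← sm_mul, inv_mul_cancel, sm_one]

private theorem sm_mul_inv (g : SpecialLinearGroup (Fin N) ℝ) : sm g * sm g⁻¹ = 1 := by
  rw [← sm_mul, mul_inv_cancel, sm_one]

private noncomputable instance R2_mulAction (u : Ten N a) :
    MulAction (SpecialLinearGroup (Fin N) ℝ) (Orb u) where
  smul g t := ⟨act (sm g⁻¹) t.1, by
    obtain ⟨z, hz, ht⟩ := t.2
    exact ⟨z * sm g⁻¹, by rw [det_mul, hz, sm_det, mul_one], by rw [act_mul, ht]⟩⟩
  one_smul t := Subtype.ext (by
    change act (sm (1 : SpecialLinearGroup (Fin N) ℝ)⁻¹) t.1 = t.1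
    rw [inv_one]
    exact act_one _)
  mul_smul g h t := Subtype.ext (by
    change act (sm (g * h)⁻¹) t.1 = act (sm g⁻¹) (act (sm h⁻¹) t.1)
    rw [_root_.mul_inv_rev, sm_mul, act_mul])

omit [Fintype I] in
private theorem R2_smul (u : Ten N a) (g : SpecialLinearGroup (Fin N) ℝ) (t : Orb u) :
    (g • t).1 = act (sm g⁻¹) t.1 := rfl

private instance R2_continuousSMul (u : Ten N a) :
    ContinuousSMul (SpecialLinearGroup (Fin N) ℝ) (Orb u) where
  continuous_smul := by
    refine Continuous.subtype_mk ?_ _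
    have h1 : Continuous fun p : SpecialLinearGroup (Fin N) ℝ × Orb u => (sm p.1⁻¹, p.2.1) :=
      (continuous_sm.comp (continuous_inv.comp continuous_fst)).prodMk
        (continuous_subtype_val.comp continuous_snd)
    exact continuous_act.comp h1

omit [Fintype I] in
private theorem R2_pretransitive (u : Ten N a) :
    MulAction.IsPretransitive (SpecialLinearGroup (Fin N) ℝ) (Orb u) where
  exists_smul_eq s t := by
    obtain ⟨z, hz, hs⟩ := s.2
    obtain ⟨z', hz', ht⟩ := t.2
    have hs' : s.1 = act z u := hs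
    have ht' : t.1 = act z' u := ht
    let g : SpecialLinearGroup (Fin N) ℝ := ⟨z, hz⟩
    let g' : SpecialLinearGroup (Fin N) ℝ := ⟨z', hz'⟩
    refine ⟨g'⁻¹ * g, Subtype.ext ?_⟩
    have h1 : z * sm g⁻¹ = 1 := sm_mul_inv g
    rw [R2_smul, hs', ht', _root_.mul_inv_rev, inv_inv, sm_mul, ← act_mul, ← mul_assoc, h1, one_mul]
    rfl

/-- Properness for matrices of determinant one.
Proof: the open mapping theorem for the transitive action of `SL_N(ℝ)` on the (locally compact)
orbit: a compact set in the orbit is the image of a compact set of matrices. -/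
theorem IsRed.exists_cpt {u : Ten N a} (h : IsRed u) (M : ℝ) : ∃ M' : ℝ,
    ∀ z : Matrix (Fin N) (Fin N) ℝ, z.det = 1 → nsq (act z u) ≤ M →
      ∃ g c : Matrix (Fin N) (Fin N) ℝ, act g u = u ∧ c.det = 1 ∧ z = g * c ∧
        (∀ i j, |c i j| ≤ M') ∧ ∀ i j, |c⁻¹ i j| ≤ M' := by
  have hlc : LocallyCompactSpace (Orb u) := h.closed.locallyCompactSpace
  have hsc0 : SigmaCompactSpace (Matrix (Fin N) (Fin N) ℝ) :=
    inferInstanceAs (SigmaCompactSpace (Fin N → Fin N → ℝ))
  have hsc : SigmaCompactSpace (SpecialLinearGroup (Fin N) ℝ) :=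
    (SpecialLinearGroup.isClosedEmbedding_val (n := Fin N) (R := ℝ)).sigmaCompactSpace
  have hpt := R2_pretransitive u
  let x : Orb u := ⟨u, 1, Matrix.det_one, (act_one u).symm⟩
  have hopen := isOpenMap_smul_of_sigmaCompact (G := SpecialLinearGroup (Fin N) ℝ) x
  let U : ℕ → Set (SpecialLinearGroup (Fin N) ℝ) := fun m =>
    {g | ∀ i j, |sm g i j| < m ∧ |sm g⁻¹ i j| < m}
  have hU : ∀ m, IsOpen (U m) := by
    intro m
    have h1 : U m = ⋂ i, ⋂ j, ({g : SpecialLinearGroup (Fin N) ℝ | |sm g i j| < m} ∩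
        {g | |sm g⁻¹ i j| < m}) := by
      ext g
      simp only [U, Set.mem_ofPred_eq, Set.mem_iInter, Set.mem_inter_iff]
    rw [h1]
    refine isOpen_iInter_of_finite fun i => isOpen_iInter_of_finite fun j => ?_
    have c1 : Continuous fun g : SpecialLinearGroup (Fin N) ℝ => |sm g i j| :=
      (continuous_sm.matrix_elem i j).abs
    have c2 : Continuous fun g : SpecialLinearGroup (Fin N) ℝ => |sm g⁻¹ i j| :=
      ((continuous_sm.comp continuous_inv).matrix_elem i j).abs
    exact (isOpen_lt c1 continuous_const).inter (isOpen_lt c2 continuous_const)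
  have hUmono : Monotone U := by
    intro m m' hm g hg i j
    have hm' : (m : ℝ) ≤ m' := by exact_mod_cast hm
    exact ⟨(hg i j).1.trans_le hm', (hg i j).2.trans_le hm'⟩
  have hUcov : ∀ g, ∃ m, g ∈ U m := by
    intro g
    obtain ⟨m, hm⟩ := exists_nat_gt (∑ i, ∑ j, (|sm g i j| + |sm g⁻¹ i j|))
    refine ⟨m, fun i j => ?_⟩
    have h1 : |sm g i j| + |sm g⁻¹ i j| ≤ ∑ i, ∑ j, (|sm g i j| + |sm g⁻¹ i j|) := by
      refine le_trans ?_ (Finset.single_le_sum
        (f := fun i => ∑ j, (|sm g i j| + |sm g⁻¹ i j|))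
        (fun i _ => Finset.sum_nonneg fun j _ => by positivity) (Finset.mem_univ i))
      exact Finset.single_le_sum (f := fun j => |sm g i j| + |sm g⁻¹ i j|)
        (fun j _ => by positivity) (Finset.mem_univ j)
    constructor
    · linarith [abs_nonneg (sm g⁻¹ i j)]
    · linarith [abs_nonneg (sm g i j)]
  -- the compact set
  let K : Set (Orb u) := {t | nsq t.1 ≤ M}
  have hK : IsCompact K := by
    have h1 : IsCompact {t : Ten N a | (∃ z : Matrix (Fin N) (Fin N) ℝ, z.det = 1 ∧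
        t = act z u) ∧ nsq t ≤ M} := by
      refine Metric.isCompact_of_isClosed_isBounded
        (h.closed.inter (isClosed_le continuous_nsq continuous_const)) ?_
      rw [isBounded_iff_forall_norm_le]
      refine ⟨|M + 1|, fun t ht => ?_⟩
      refine (pi_norm_le_iff_of_nonneg (abs_nonneg _)).2 fun i =>
        (pi_norm_le_iff_of_nonneg (abs_nonneg _)).2 fun J => ?_
      exact (abs_le_of_nsq_le ht.2 i J).trans (le_abs_self _)
    rw [Subtype.isCompact_iff]
    convert h1 using 1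
    ext t
    constructor
    · rintro ⟨t, ht, rfl⟩
      exact ⟨t.2, ht⟩
    · rintro ⟨ht1, ht2⟩
      exact ⟨⟨t, ht1⟩, ht2, rfl⟩
  obtain ⟨s, hs⟩ := hK.elim_finite_subcover (fun m => (fun g => g • x) '' U m)
    (fun m => hopen _ (hU m)) (fun t _ => by
      obtain ⟨g, hg⟩ := MulAction.exists_smul_eq (SpecialLinearGroup (Fin N) ℝ) x t
      obtain ⟨m, hm⟩ := hUcov g
      exact Set.mem_iUnion.2 ⟨m, g, hm, hg⟩)
  refine ⟨(s.sup id : ℕ), fun z hz hzM => ?_⟩
  let t : Orb u := ⟨act z u, z, hz, rfl⟩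
  have ht : t ∈ K := hzM
  obtain ⟨m, hm, g, hg, hgt⟩ := Set.mem_iUnion₂.1 (hs ht)
  have hg' : g ∈ U (s.sup id) := hUmono (Finset.le_sup (f := id) hm) hg
  have hgt' : act (sm g⁻¹) u = act z u := congrArg Subtype.val hgt
  have h1 : sm g⁻¹ * sm g = 1 := sm_inv_mul g
  refine ⟨z * sm g, sm g⁻¹, ?_, sm_det _, ?_, fun i j => (hg' i j).2.le, fun i j => ?_⟩
  · rw [act_mul, ← hgt', ← act_mul, h1, act_one]
  · rw [mul_assoc]
    have h3 : sm g * sm g⁻¹ = 1 := sm_mul_inv g
    rw [h3, mul_one]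
  · have h4 : (sm g⁻¹)⁻¹ = sm g := inv_eq_right_inv h1
    rw [h4]
    exact (hg' i j).1.le

end Pool.Agent.Lib.MP_666dc0_nt.RT
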