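import Pool.Agent.Lib.MP_666dc0_nt.RT.R1

/-!
# RT, R3a: the symmetric space
-/

open Matrix

namespace Pool.Agent.Lib.MP_666dc0_nt.RT

variable {N : ℕ} {I : Type} [Fintype I] {a : I → ℕ}

/-- The positive definite matrices in the stabiliser of `u` (the symmetric space of the stabiliser
if `u` is minimal). -/
def XX (u : Ten N a) : Set (Matrix (Fin N) (Fin N) ℝ) := {Z | Z.PosSemidef ∧ act Z u = u}

theorem XX.det {u : Ten N a} (h : IsRed u) {Z : Matrix (Fin N) (Fin N) ℝ} (hZ : Z ∈ XX u) :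
    Z.det ≠ 0 := by
  intro h0
  have h1 := h.det_one Z hZ.2
  rw [h0, abs_zero] at h1
  exact zero_ne_one h1

theorem XX.posDef {u : Ten N a} (h : IsRed u) {Z : Matrix (Fin N) (Fin N) ℝ} (hZ : Z ∈ XX u) :
    Z.PosDef :=
  hZ.1.posDef_iff_isUnit.2 ((Matrix.isUnit_iff_isUnit_det Z).2
    (isUnit_iff_ne_zero.2 (XX.det h hZ)))

omit [Fintype I] in
theorem XX.one (u : Ten N a) : (1 : Matrix (Fin N) (Fin N) ℝ) ∈ XX u :=
  ⟨PosSemidef.one, act_one u⟩

theorem XX.inv {u : Ten N a} (h : IsRed u) {Z : Matrix (Fin N) (Fin N) ℝ} (hZ : Z ∈ XX u) :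
    Z⁻¹ ∈ XX u :=
  ⟨hZ.1.inv, act_inv hZ.2 (XX.det h hZ)⟩

/-- `G₀` acts on the symmetric space. -/
theorem XX.conj {u : Ten N a} (h : IsRed u) (hm : IsMin u) {Z k : Matrix (Fin N) (Fin N) ℝ}
    (hZ : Z ∈ XX u) (hk : act k u = u) : kᵀ * Z * k ∈ XX u := by
  refine ⟨?_, ?_⟩
  · have h1 := hZ.1.conjTranspose_mul_mul_same k
    rw [conjTranspose_eq_transpose_of_trivial] at h1
    exact h1
  · rw [act_mul, act_mul, hm.transpose hk (h.det_one k hk), hZ.2, hk]

theorem XX.conj' {u : Ten N a} (h : IsRed u) (hm : IsMin u) {Z k : Matrix (Fin N) (Fin N) ℝ}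
    (hZ : Z ∈ XX u) (hk : act k u = u) : k * Z * kᵀ ∈ XX u := by
  have h1 := XX.conj h hm hZ (hm.transpose hk (h.det_one k hk))
  rw [transpose_transpose] at h1
  exact h1

/-- Every point of the symmetric space is `gᵀ g` with `g` symmetric in the stabiliser. -/
theorem XX.exists_sqrt {u : Ten N a} (h : IsRed u) {Z : Matrix (Fin N) (Fin N) ℝ} (hZ : Z ∈ XX u) :
    ∃ g : Matrix (Fin N) (Fin N) ℝ, act g u = u ∧ g.det ≠ 0 ∧ Z = gᵀ * g := by
  obtain ⟨O, x, hO, hO', hx, hZ', hact⟩ := RT.exists_sqrt (XX.posDef h hZ) hZ.2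
  have hmul : ∀ f f' : Fin N → ℝ, (O * diagonal f * Oᵀ) * (O * diagonal f' * Oᵀ) =
      O * diagonal (fun i => f i * f' i) * Oᵀ := by
    intro f f'
    calc (O * diagonal f * Oᵀ) * (O * diagonal f' * Oᵀ)
        = O * diagonal f * (Oᵀ * O) * diagonal f' * Oᵀ := by simp only [mul_assoc]
      _ = O * (diagonal f * diagonal f') * Oᵀ := by rw [hO', mul_one]; simp only [mul_assoc]
      _ = _ := by rw [diagonal_mul_diagonal]
  let y := O * diagonal x * Oᵀ
  have hyt : yᵀ = y := by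
    change (O * diagonal x * Oᵀ)ᵀ = O * diagonal x * Oᵀ
    rw [transpose_mul, transpose_mul, transpose_transpose, diagonal_transpose, mul_assoc]
  have hg : act (y * y) u = u := by
    rw [act_mul]
    change act (O * diagonal x * Oᵀ) (act (O * diagonal x * Oᵀ) u) = u
    rw [hact, hact]
  refine ⟨y * y, hg, ?_, ?_⟩
  · intro h0
    have h1 := h.det_one _ hg
    rw [h0, abs_zero] at h1
    exact zero_ne_one h1
  · rw [transpose_mul, hyt, hZ']
    change _ = (O * diagonal x * Oᵀ) * (O * diagonal x * Oᵀ) *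
      ((O * diagonal x * Oᵀ) * (O * diagonal x * Oᵀ))
    rw [hmul, hmul]
    congr 3
    funext i
    ring

theorem isClosed_posSemidef : IsClosed {Z : Matrix (Fin N) (Fin N) ℝ | Z.PosSemidef} := by
  have h1 : {Z : Matrix (Fin N) (Fin N) ℝ | Z.PosSemidef} =
      {Z | Zᴴ = Z} ∩ ⋂ x : Fin N → ℝ, {Z | 0 ≤ star x ⬝ᵥ (Z *ᵥ x)} := by
    ext Z
    simp only [Set.mem_ofPred_eq, posSemidef_iff_dotProduct_mulVec, Set.mem_inter_iff,
      Set.mem_iInter]
    rfl
  rw [h1]
  refine IsClosed.inter (isClosed_eq continuous_id.matrix_conjTranspose continuous_id)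
    (isClosed_iInter fun x => isClosed_le continuous_const ?_)
  exact Continuous.dotProduct continuous_const (Continuous.matrix_mulVec continuous_id
    continuous_const)

omit [Fintype I] in
theorem isClosed_XX (u : Ten N a) : IsClosed (XX u) := by
  have h1 : Continuous fun Z : Matrix (Fin N) (Fin N) ℝ => act Z u :=
    continuous_act.comp (continuous_id.prodMk continuous_const)
  exact isClosed_posSemidef.inter (isClosed_eq h1 continuous_const)

end Pool.Agent.Lib.MP_666dc0_nt.RT
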