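import Pool.Agent.Lib.MP_666dc0_nt.RT.R3a

/-!
# RT, R3b: coercivity and existence of the projection
-/

open Matrix Filter Topology

namespace Pool.Agent.Lib.MP_666dc0_nt.RT

variable {N : ℕ} {I : Type} [Fintype I] {a : I → ℕ}

/-- The entries of a positive definite matrix are bounded by the trace. -/
theorem abs_le_trace {W : Matrix (Fin N) (Fin N) ℝ} (hW : W.PosDef) (i j : Fin N) :
    |W i j| ≤ W.trace := by
  obtain ⟨O, x, hO, hO', hx, hW'⟩ := exists_spectral hW
  have htr : W.trace = ∑ k, x k := by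
    rw [hW', trace_mul_comm, ← mul_assoc, hO', one_mul, trace_diagonal]
  have hle : ∀ i k, |O i k| ≤ 1 := by
    intro i k
    have h1 : ∑ k, O i k * O i k = 1 := by
      have h2 := congrFun (congrFun hO i) i
      rw [mul_apply, one_apply_eq] at h2
      simpa only [transpose_apply] using h2
    have h3 : O i k * O i k ≤ 1 := by
      rw [← h1]
      exact Finset.single_le_sum (f := fun k => O i k * O i k) (fun k _ => mul_self_nonneg _)
        (Finset.mem_univ k)
    rw [← abs_mul_abs_self] at h3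
    nlinarith [abs_nonneg (O i k)]
  have hij : W i j = ∑ k, O i k * x k * O j k := by
    rw [hW', mul_apply]
    refine Finset.sum_congr rfl fun k _ => ?_
    rw [mul_diagonal, transpose_apply]
  rw [hij, htr]
  refine (Finset.abs_sum_le_sum_abs _ _).trans (Finset.sum_le_sum fun k _ => ?_)
  rw [abs_mul, abs_mul, abs_of_pos (hx k)]
  calc |O i k| * x k * |O j k| ≤ 1 * x k * 1 :=
        mul_le_mul (mul_le_mul_of_nonneg_right (hle i k) (hx k).le) (hle j k) (abs_nonneg _)
          (by rw [one_mul]; exact (hx k).le)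
    _ = x k := by ring

/-- The trace form is coercive near a positive definite matrix.
Proof: `tr (W P) = ∑ (Oᵀ W O)_ii p_i ≥ (min p) tr W` for `P = O diag(p) Oᵀ`, and
`|tr (W (P' - P))| ≤ N² δ tr W` if the entries of `P' - P` are `≤ δ`. -/
theorem exists_coercive {P : Matrix (Fin N) (Fin N) ℝ} (hP : P.PosDef) :
    ∃ c : ℝ, 0 < c ∧ ∀ᶠ P' in 𝓝 P, ∀ W : Matrix (Fin N) (Fin N) ℝ, W.PosDef →
      c * W.trace ≤ (W * P').trace := by
  obtain ⟨O, p, hO, hO', hp, hP'⟩ := exists_spectral hP
  obtain ⟨c, hc, hcp⟩ : ∃ c : ℝ, 0 < c ∧ ∀ i, c ≤ p i := by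
    rcases isEmpty_or_nonempty (Fin N) with hE | hE
    · exact ⟨1, one_pos, fun i => hE.elim i⟩
    · obtain ⟨i, hi⟩ := Finite.exists_min p
      exact ⟨p i, hp i, hi⟩
  have h1 : ∀ W : Matrix (Fin N) (Fin N) ℝ, W.PosDef → c * W.trace ≤ (W * P).trace := by
    intro W hW
    have h2 : (W * P).trace = ∑ i, (Oᵀ * W * O) i i * p i := by
      rw [hP', show W * (O * diagonal p * Oᵀ) = W * O * diagonal p * Oᵀ by simp only [mul_assoc],
        trace_mul_comm, show Oᵀ * (W * O * diagonal p) = Oᵀ * W * O * diagonal p by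
          simp only [mul_assoc]]
      unfold trace
      refine Finset.sum_congr rfl fun i _ => ?_
      rw [diag_apply, mul_diagonal]
    have h3 : W.trace = ∑ i, (Oᵀ * W * O) i i := by
      have h4 : (Oᵀ * W * O).trace = W.trace := by
        rw [trace_mul_comm, ← mul_assoc, hO, one_mul]
      rw [← h4]
      rfl
    have h5 : ∀ i, 0 ≤ (Oᵀ * W * O) i i := by
      intro i
      have h6 : (Oᵀ * W * O).PosSemidef := by
        have h7 := hW.posSemidef.conjTranspose_mul_mul_same O
        rw [conjTranspose_eq_transpose_of_trivial] at h7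
        exact h7
      exact h6.diag_nonneg
    rw [h2, h3, Finset.mul_sum]
    refine Finset.sum_le_sum fun i _ => ?_
    rw [mul_comm c]
    exact mul_le_mul_of_nonneg_left (hcp i) (h5 i)
  let δ : ℝ := c / (2 * ((N : ℝ) * N + 1))
  have hδ : 0 < δ := by positivity
  refine ⟨c / 2, by positivity, ?_⟩
  have h8 : ∀ᶠ P' in 𝓝 P, ∀ i j, |P' i j - P i j| < δ := by
    refine eventually_all.2 fun i => eventually_all.2 fun j => ?_
    have h9 : Continuous fun P' : Matrix (Fin N) (Fin N) ℝ => |P' i j - P i j| :=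
      ((continuous_id.matrix_elem i j).sub continuous_const).abs
    refine (h9.tendsto P).eventually_lt_const ?_
    rw [sub_self, abs_zero]
    exact hδ
  filter_upwards [h8] with P' hP'' W hW
  have h10 : (W * P').trace = (W * P).trace + ∑ i, ∑ j, W i j * (P' j i - P j i) := by
    unfold trace
    rw [← Finset.sum_add_distrib]
    refine Finset.sum_congr rfl fun i _ => ?_
    rw [diag_apply, diag_apply, mul_apply, mul_apply, ← Finset.sum_add_distrib]
    refine Finset.sum_congr rfl fun j _ => ?_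
    ring
  have htr : 0 ≤ W.trace := hW.posSemidef.trace_nonneg
  have h11 : |∑ i, ∑ j, W i j * (P' j i - P j i)| ≤ (N : ℝ) * N * (W.trace * δ) := by
    have h12 : ∀ i j, |W i j * (P' j i - P j i)| ≤ W.trace * δ := by
      intro i j
      rw [abs_mul]
      exact mul_le_mul (abs_le_trace hW i j) (hP'' j i).le (abs_nonneg _) htr
    calc |∑ i, ∑ j, W i j * (P' j i - P j i)|
        ≤ ∑ i, ∑ j, |W i j * (P' j i - P j i)| :=
          (Finset.abs_sum_le_sum_abs _ _).trans
            (Finset.sum_le_sum fun i _ => Finset.abs_sum_le_sum_abs _ _)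
      _ ≤ ∑ _i : Fin N, ∑ _j : Fin N, W.trace * δ :=
          Finset.sum_le_sum fun i _ => Finset.sum_le_sum fun j _ => h12 i j
      _ = (N : ℝ) * N * (W.trace * δ) := by
          simp only [Finset.sum_const, Finset.card_univ, Fintype.card_fin, nsmul_eq_mul]
          ring
  have h13 : (N : ℝ) * N * (W.trace * δ) ≤ c / 2 * W.trace := by
    have h14 : (N : ℝ) * N * δ ≤ c / 2 := by
      change (N : ℝ) * N * (c / (2 * ((N : ℝ) * N + 1))) ≤ c / 2
      rw [← mul_div_assoc, div_le_div_iff₀ (by positivity) (by norm_num)]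
      nlinarith [hc, mul_nonneg (Nat.cast_nonneg N : (0 : ℝ) ≤ N) (Nat.cast_nonneg N : (0 : ℝ) ≤ N)]
    calc (N : ℝ) * N * (W.trace * δ) = (N : ℝ) * N * δ * W.trace := by ring
      _ ≤ c / 2 * W.trace := mul_le_mul_of_nonneg_right h14 htr
  have h15 := h1 W hW
  have h16 := neg_abs_le (∑ i, ∑ j, W i j * (P' j i - P j i))
  rw [h10]
  linarith

/-- Bounded parts of the symmetric space are compact. -/
theorem isCompact_XX {u : Ten N a} (h : IsRed u) (R : ℝ) :
    IsCompact {W : Matrix (Fin N) (Fin N) ℝ | W ∈ XX u ∧ W.trace ≤ R} := by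
  have h2 : IsCompact (Set.pi Set.univ fun _ : Fin N => Set.pi Set.univ fun _ : Fin N =>
      Set.Icc (-R) R) :=
    isCompact_univ_pi fun _ => isCompact_univ_pi fun _ => isCompact_Icc
  have hcl : IsClosed {W : Matrix (Fin N) (Fin N) ℝ | W ∈ XX u ∧ W.trace ≤ R} := by
    have h3 : IsClosed {W : Matrix (Fin N) (Fin N) ℝ | W.trace ≤ R} :=
      isClosed_le continuous_id.matrix_trace continuous_const
    exact (isClosed_XX u).inter h3
  refine IsCompact.of_isClosed_subset (X := Matrix (Fin N) (Fin N) ℝ) h2 hcl ?_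
  rintro W ⟨hW, hR⟩ i _ j _
  exact abs_le.1 ((abs_le_trace (XX.posDef h hW) i j).trans hR)

/-- `W` minimises `tr (W P)` on the symmetric space. -/
def IsProj (u : Ten N a) (P W : Matrix (Fin N) (Fin N) ℝ) : Prop :=
  W ∈ XX u ∧ ∀ W' ∈ XX u, (W * P).trace ≤ (W' * P).trace

/-- Existence of the minimiser. -/
theorem exists_isProj {u : Ten N a} (h : IsRed u) {P : Matrix (Fin N) (Fin N) ℝ} (hP : P.PosDef) :
    ∃ W, IsProj u P W := by
  obtain ⟨c, hc, hcoer⟩ := exists_coercive hP
  have hcP := hcoer.self_of_nhds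
  have hK := isCompact_XX h (max (N : ℝ) (P.trace / c))
  have hcont : Continuous fun W : Matrix (Fin N) (Fin N) ℝ => (W * P).trace :=
    (continuous_id.matrix_mul continuous_const).matrix_trace
  have hne : {W : Matrix (Fin N) (Fin N) ℝ | W ∈ XX u ∧
      W.trace ≤ max (N : ℝ) (P.trace / c)}.Nonempty :=
    ⟨1, XX.one u, by rw [trace_one, Fintype.card_fin]; exact le_max_left _ _⟩
  obtain ⟨W, ⟨hW, -⟩, hmin⟩ := hK.exists_isMinOn hne hcont.continuousOn
  refine ⟨W, hW, fun W' hW' => ?_⟩
  by_cases h1 : W'.trace ≤ max (N : ℝ) (P.trace / c)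
  · exact hmin ⟨hW', h1⟩
  · have h2 := hcP W' (XX.posDef h hW')
    have h3 : P.trace / c < W'.trace := (le_max_right _ _).trans_lt (not_le.1 h1)
    have h4 : P.trace ≤ (W' * P).trace := by
      rw [div_lt_iff₀ hc] at h3
      linarith [mul_comm c W'.trace]
    have h5 : (W * P).trace ≤ ((1 : Matrix (Fin N) (Fin N) ℝ) * P).trace :=
      hmin ⟨XX.one u, by rw [trace_one, Fintype.card_fin]; exact le_max_left _ _⟩
    rw [one_mul] at h5
    exact h5.trans h4

end Pool.Agent.Lib.MP_666dc0_nt.RT
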