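import Pool.Agent.Lib.MP_666dc0_nt.RT.R3b

/-!
# RT, R3c: uniqueness and equivariance of the projection
-/

open Matrix

namespace Pool.Agent.Lib.MP_666dc0_nt.RT

variable {N : ℕ} {I : Type} [Fintype I] {a : I → ℕ}

/-- Equivariance. -/
theorem IsProj.conj {u : Ten N a} (h : IsRed u) (hm : IsMin u) {P W g : Matrix (Fin N) (Fin N) ℝ}
    (hW : IsProj u P W) (hg : act g u = u) :
    IsProj u (g * P * gᵀ) ((g⁻¹)ᵀ * W * g⁻¹) := by
  have hdet : g.det ≠ 0 := by
    intro h0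
    have h1 := h.det_one g hg
    rw [h0, abs_zero] at h1
    exact zero_ne_one h1
  have hu : IsUnit g.det := isUnit_iff_ne_zero.2 hdet
  have hgi : g⁻¹ * g = 1 := nonsing_inv_mul _ hu
  have hgt : gᵀ * (g⁻¹)ᵀ = 1 := by rw [← transpose_mul, hgi, transpose_one]
  refine ⟨XX.conj h hm hW.1 (act_inv hg hdet), fun W' hW' => ?_⟩
  have h1 : ((g⁻¹)ᵀ * W * g⁻¹ * (g * P * gᵀ)).trace = (W * P).trace := by
    calc ((g⁻¹)ᵀ * W * g⁻¹ * (g * P * gᵀ)).trace
        = ((g⁻¹)ᵀ * (W * (g⁻¹ * g) * P * gᵀ)).trace := by simp only [mul_assoc]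
      _ = (W * P * (gᵀ * (g⁻¹)ᵀ)).trace := by
          rw [trace_mul_comm, hgi, mul_one]
          simp only [mul_assoc]
      _ = _ := by rw [hgt, mul_one]
  have h2 : (W' * (g * P * gᵀ)).trace = (gᵀ * W' * g * P).trace := by
    calc (W' * (g * P * gᵀ)).trace = (W' * g * P * gᵀ).trace := by simp only [mul_assoc]
      _ = (gᵀ * (W' * g * P)).trace := trace_mul_comm _ _
      _ = _ := by simp only [mul_assoc]
  rw [h1, h2]
  exact hW.2 _ (XX.conj h hm hW' hg)

private theorem R3c_one {u : Ten N a} {P W : Matrix (Fin N) (Fin N) ℝ}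
    (h : IsRed u) (hP : P.PosDef) (h1 : IsProj u P 1) (hW : IsProj u P W) : W = 1 := by
  obtain ⟨O, x, hO, hO', hx, hW', hact⟩ := RT.exists_sqrt (XX.posDef h hW.1) hW.1.2
  have hmul : ∀ f f' : Fin N → ℝ, (O * diagonal f * Oᵀ) * (O * diagonal f' * Oᵀ) =
      O * diagonal (fun i => f i * f' i) * Oᵀ := by
    intro f f'
    calc (O * diagonal f * Oᵀ) * (O * diagonal f' * Oᵀ)
        = O * diagonal f * (Oᵀ * O) * diagonal f' * Oᵀ := by simp only [mul_assoc]
      _ = O * (diagonal f * diagonal f') * Oᵀ := by rw [hO', mul_one]; simp only [mul_assoc]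
      _ = _ := by rw [diagonal_mul_diagonal]
  have htr : ∀ f : Fin N → ℝ, (O * diagonal f * Oᵀ * P).trace = ∑ i, f i * (Oᵀ * P * O) i i := by
    intro f
    have e : O * diagonal f * Oᵀ * P = O * (diagonal f * (Oᵀ * P)) := by simp only [mul_assoc]
    rw [e, trace_mul_comm, mul_assoc]
    unfold trace
    refine Finset.sum_congr rfl fun i _ => ?_
    rw [diag_apply, diagonal_mul]
  have hp : ∀ i, 0 < (Oᵀ * P * O) i i := by
    intro i
    have hinj : Function.Injective O.mulVec := by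
      intro v w hvw
      have h2 := congrArg (Oᵀ *ᵥ ·) hvw
      simp only [mulVec_mulVec, hO', one_mulVec] at h2
      exact h2
    have h3 := hP.conjTranspose_mul_mul_same hinj
    rw [conjTranspose_eq_transpose_of_trivial] at h3
    exact h3.diag_pos
  -- the midpoint
  have hmid : O * diagonal (fun i => x i ^ 2) * Oᵀ ∈ XX u := by
    constructor
    · have h4 : (diagonal fun i => x i ^ 2 : Matrix (Fin N) (Fin N) ℝ).PosSemidef :=
        PosSemidef.diagonal fun i => by positivity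
      have h5 := h4.mul_mul_conjTranspose_same O
      rw [conjTranspose_eq_transpose_of_trivial] at h5
      exact h5
    · have h6 : O * diagonal (fun i => x i ^ 2) * Oᵀ = (O * diagonal x * Oᵀ) *
          (O * diagonal x * Oᵀ) := by
        rw [hmul]
        congr 3
        funext i
        ring
      rw [h6, act_mul, hact, hact]
  have h7 := h1.2 _ hmid
  have h8 := hW.2 _ (XX.one u)
  have h9 := h1.2 _ hW.1
  have e1 : ((1 : Matrix (Fin N) (Fin N) ℝ) * P).trace = ∑ i, (Oᵀ * P * O) i i := by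
    have h10 := htr fun _ => 1
    have h11 : O * diagonal (fun _ => (1 : ℝ)) * Oᵀ = 1 := by
      rw [diagonal_one, mul_one, hO]
    rw [h11] at h10
    rw [h10]
    simp
  have e2 : (W * P).trace = ∑ i, x i ^ 4 * (Oᵀ * P * O) i i := by
    rw [hW']
    exact htr _
  rw [htr] at h7
  rw [e1] at h7 h8 h9
  rw [e2] at h8 h9
  have h12 : ∑ i, (Oᵀ * P * O) i i * (1 - x i ^ 2) ^ 2 ≤ 0 := by
    have h13 : ∑ i, (Oᵀ * P * O) i i * (1 - x i ^ 2) ^ 2 = ∑ i, (Oᵀ * P * O) i i -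
        2 * ∑ i, x i ^ 2 * (Oᵀ * P * O) i i + ∑ i, x i ^ 4 * (Oᵀ * P * O) i i := by
      rw [Finset.mul_sum, ← Finset.sum_sub_distrib, ← Finset.sum_add_distrib]
      refine Finset.sum_congr rfl fun i _ => ?_
      ring
    rw [h13]
    linarith
  have h14 : ∀ i, x i ^ 4 = 1 := by
    intro i
    have h15 : (Oᵀ * P * O) i i * (1 - x i ^ 2) ^ 2 ≤ 0 :=
      (Finset.single_le_sum (f := fun i => (Oᵀ * P * O) i i * (1 - x i ^ 2) ^ 2)
        (fun i _ => mul_nonneg (hp i).le (sq_nonneg _)) (Finset.mem_univ i)).trans h12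
    have h16 : (1 - x i ^ 2) ^ 2 = 0 := by
      refine le_antisymm ?_ (sq_nonneg _)
      by_contra h17
      exact absurd h15 (not_le.2 (mul_pos (hp i) (not_le.1 h17)))
    have h18 : 1 - x i ^ 2 = 0 := pow_eq_zero_iff (by norm_num) |>.1 h16
    have h19 : x i ^ 2 = 1 := by linarith
    calc x i ^ 4 = (x i ^ 2) ^ 2 := by ring
      _ = 1 := by rw [h19, one_pow]
  rw [hW']
  simp only [h14]
  rw [diagonal_one, mul_one, hO]

/-- Uniqueness of the minimiser. -/
theorem IsProj.unique {u : Ten N a} (h : IsRed u) (hm : IsMin u)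
    {P W₁ W₂ : Matrix (Fin N) (Fin N) ℝ} (hP : P.PosDef) (h1 : IsProj u P W₁)
    (h2 : IsProj u P W₂) : W₁ = W₂ := by
  obtain ⟨g, hg, hdet, hW₁⟩ := XX.exists_sqrt h h1.1
  have hu : IsUnit g.det := isUnit_iff_ne_zero.2 hdet
  have hgi : g⁻¹ * g = 1 := nonsing_inv_mul _ hu
  have hgi' : g * g⁻¹ = 1 := mul_nonsing_inv _ hu
  have hgt : (g⁻¹)ᵀ * gᵀ = 1 := by rw [← transpose_mul, hgi', transpose_one]
  have hgt' : gᵀ * (g⁻¹)ᵀ = 1 := by rw [← transpose_mul, hgi, transpose_one]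
  have hP' : (g * P * gᵀ).PosDef := by
    have hunit : IsUnit g := (Matrix.isUnit_iff_isUnit_det g).2 hu
    have h3 := hunit.posDef_star_right_conjugate_iff.2 hP
    rw [star_eq_conjTranspose, conjTranspose_eq_transpose_of_trivial] at h3
    exact h3
  have h4 := h1.conj h hm hg
  have h5 := h2.conj h hm hg
  have h6 : (g⁻¹)ᵀ * W₁ * g⁻¹ = 1 := by
    rw [hW₁]
    calc (g⁻¹)ᵀ * (gᵀ * g) * g⁻¹ = ((g⁻¹)ᵀ * gᵀ) * (g * g⁻¹) := by simp only [mul_assoc]
      _ = 1 := by rw [hgt, hgi', one_mul]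
  rw [h6] at h4
  have h7 := R3c_one h hP' h4 h5
  rw [hW₁]
  calc gᵀ * g = gᵀ * ((g⁻¹)ᵀ * W₂ * g⁻¹) * g := by rw [h7, mul_one]
    _ = (gᵀ * (g⁻¹)ᵀ) * W₂ * (g⁻¹ * g) := by simp only [mul_assoc]
    _ = W₂ := by rw [hgt', hgi, one_mul, mul_one]

end Pool.Agent.Lib.MP_666dc0_nt.RT
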